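import Pool.Agent.Dimer3D.Swap

/-!
# Transfer of configurations and swaps along an embedding
-/

namespace Pool.Agent.Dimer3D

variable {V W : Type*} {r : V → V → Prop} {r' : W → W → Prop} {A : Set V} {B : Set W}
  {f : V → W}

theorem exists_tiling [DecidableEq V] {A : Finset V} (hr : ∀ x y, r x y → r y x)
    {τ : Set (Sym2 V)} (h : IsConfig r (A : Set V) τ) :
    ∃ M, IsTiling r A M ∧ edges A M = τ := by
  classical
  have key : ∀ x : V, ∃ y, (x ∈ A → s(x, y) ∈ τ) ∧ (x ∉ A → y = x) := by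
    intro x
    by_cases hx : x ∈ A
    · obtain ⟨e, ⟨he, hxe⟩, -⟩ := h.2 x hx
      obtain ⟨y, rfl⟩ := Sym2.mem_iff_exists.1 hxe
      exact ⟨y, fun _ => he, fun h => absurd hx h⟩
    · exact ⟨x, fun h => absurd h hx, fun _ => rfl⟩
  choose M hM1 hM2 using key
  have hprop : ∀ x y, s(x, y) ∈ τ → x ∈ A ∧ y ∈ A ∧ r x y := by
    intro x y hxy
    obtain ⟨a, ha, b, hb, hab, he⟩ := h.1 _ hxy
    rw [Sym2.eq_iff] at he
    rcases he with ⟨rfl, rfl⟩ | ⟨rfl, rfl⟩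
    · exact ⟨ha, hb, hab⟩
    · exact ⟨hb, ha, hr _ _ hab⟩
  have huniq : ∀ x ∈ A, ∀ y z, s(x, y) ∈ τ → s(x, z) ∈ τ → y = z := by
    intro x hx y z hy hz
    obtain ⟨e, -, he⟩ := h.2 x hx
    have h1 := he _ ⟨hy, by simp⟩
    have h2 := he _ ⟨hz, by simp⟩
    rw [← h2, Sym2.eq_iff] at h1
    rcases h1 with ⟨_, h⟩ | ⟨h, h'⟩
    · exact h
    · exact h'.trans h
  refine ⟨M, ⟨?_, ?_, ?_, hM2⟩, ?_⟩
  · intro x hx
    exact (hprop _ _ (hM1 x hx)).2.1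
  · intro x hx
    exact (hprop _ _ (hM1 x hx)).2.2
  · intro x hx
    have hMx := (hprop _ _ (hM1 x hx)).2.1
    apply huniq (M x) hMx
    · exact hM1 _ hMx
    · rw [Sym2.eq_swap]; exact hM1 x hx
  · ext e
    induction e using Sym2.ind with
    | _ x y =>
      constructor
      · rintro ⟨z, hz, he⟩
        rw [he]
        exact hM1 z hz
      · intro hxy
        have hx := (hprop _ _ hxy).1
        refine ⟨x, hx, ?_⟩
        rw [huniq x hx _ _ (hM1 x hx) hxy]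

theorem config_pullback (hf : Function.Injective f) (hadj : ∀ x y, r' (f x) (f y) ↔ r x y)
    (hB : f '' A = B) {τ : Set (Sym2 W)} (h : IsConfig r' B τ) :
    IsConfig r A (Sym2.map f ⁻¹' τ) ∧ Sym2.map f '' (Sym2.map f ⁻¹' τ) = τ := by
  have himg : ∀ e ∈ τ, ∃ x ∈ A, ∃ y ∈ A, r x y ∧ e = s(f x, f y) := by
    intro e he
    obtain ⟨x', hx', y', hy', hxy, rfl⟩ := h.1 e he
    rw [← hB] at hx' hy'
    obtain ⟨x, hx, rfl⟩ := hx'
    obtain ⟨y, hy, rfl⟩ := hy'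
    exact ⟨x, hx, y, hy, (hadj x y).1 hxy, rfl⟩
  refine ⟨⟨?_, ?_⟩, ?_⟩
  · intro e he
    obtain ⟨x, hx, y, hy, hxy, hee⟩ := himg _ he
    refine ⟨x, hx, y, hy, hxy, ?_⟩
    apply Sym2.map.injective hf
    rw [hee, Sym2.map_mk]
  · intro x hx
    have hfx : f x ∈ B := by rw [← hB]; exact ⟨x, hx, rfl⟩
    obtain ⟨e, ⟨he, hxe⟩, huniq⟩ := h.2 (f x) hfx
    obtain ⟨a, ha, b, hb, hab, rfl⟩ := himg _ he
    refine ⟨s(a, b), ⟨by simpa [Sym2.map_mk] using he, ?_⟩, ?_⟩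
    · rw [Sym2.mem_iff] at hxe ⊢
      rcases hxe with h | h
      · left; exact hf h
      · right; exact hf h
    · rintro e' ⟨he', hxe'⟩
      have := huniq (Sym2.map f e') ⟨he', Sym2.mem_map.2 ⟨x, hxe', rfl⟩⟩
      apply Sym2.map.injective hf
      rw [this, Sym2.map_mk]
  · rw [Set.image_preimage_eq_iff]
    intro e he
    obtain ⟨x, hx, y, hy, -, rfl⟩ := himg e he
    exact ⟨s(x, y), by rw [Sym2.map_mk]⟩

theorem config_image (hf : Function.Injective f) (hadj : ∀ x y, r' (f x) (f y) ↔ r x y)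
    (hB : f '' A = B) {τ : Set (Sym2 V)} (h : IsConfig r A τ) :
    IsConfig r' B (Sym2.map f '' τ) := by
  constructor
  · rintro e ⟨e0, he0, rfl⟩
    obtain ⟨x, hx, y, hy, hxy, rfl⟩ := h.1 e0 he0
    exact ⟨f x, hB ▸ ⟨x, hx, rfl⟩, f y, hB ▸ ⟨y, hy, rfl⟩, (hadj x y).2 hxy, by rw [Sym2.map_mk]⟩
  · intro x' hx'
    rw [← hB] at hx'
    obtain ⟨x, hx, rfl⟩ := hx'
    obtain ⟨e, ⟨he, hxe⟩, huniq⟩ := h.2 x hx
    refine ⟨Sym2.map f e, ⟨⟨e, he, rfl⟩, Sym2.mem_map.2 ⟨x, hxe, rfl⟩⟩, ?_⟩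
    rintro e' ⟨⟨e0, he0, rfl⟩, hxe'⟩
    rw [Sym2.mem_map] at hxe'
    obtain ⟨x0, hx0, hx0'⟩ := hxe'
    have := hf hx0'
    subst this
    rw [huniq e0 ⟨he0, hx0⟩]

theorem swap_image (hf : Function.Injective f) (hadj : ∀ x y, r' (f x) (f y) ↔ r x y)
    (hB : f '' A = B) {k : ℕ} {τ τ' : Set (Sym2 V)} (h : IsSwap r A k τ τ') :
    IsSwap r' B k (Sym2.map f '' τ) (Sym2.map f '' τ') := by
  obtain ⟨c, hc, halt, rfl⟩ := h
  have hmap : ∀ x y, s(f x, f y) ∈ Sym2.map f '' τ ↔ s(x, y) ∈ τ := by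
    intro x y
    rw [← Sym2.map_mk, (Sym2.map.injective hf).mem_set_image]
  refine ⟨fun i => f (c i), ⟨hc.three_le, ?_, ?_, ?_, ?_⟩, ?_, ?_⟩
  · intro i; simp only [hc.periodic i]
  · intro i hi i' hi' h; exact hc.distinct i hi i' hi' (hf h)
  · intro i; rw [← hB]; exact ⟨c i, hc.mem i, rfl⟩
  · intro i; exact (hadj _ _).2 (hc.adj i)
  · intro i
    simp only [hmap]
    exact halt i
  · rw [Set.image_symmDiff (Sym2.map.injective hf)]
    congr 1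
    ext e
    constructor
    · rintro ⟨e0, ⟨i, rfl⟩, rfl⟩
      exact ⟨i, by rw [Sym2.map_mk]⟩
    · rintro ⟨i, rfl⟩
      exact ⟨s(c i, c (i + 1)), ⟨i, rfl⟩, by rw [Sym2.map_mk]⟩

theorem joined_image (hf : Function.Injective f) (hadj : ∀ x y, r' (f x) (f y) ↔ r x y)
    (hB : f '' A = B) {K : ℕ} {τ τ' : Set (Sym2 V)} (h : Joined r A K τ τ') :
    Joined r' B K (Sym2.map f '' τ) (Sym2.map f '' τ') := by
  induction h with
  | refl => exact Relation.ReflTransGen.refl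
  | tail _ hbc ih =>
    refine ih.tail ?_
    obtain ⟨h1, h2, k, hk, h3⟩ := hbc
    exact ⟨config_image hf hadj hB h1, config_image hf hadj hB h2, k, hk, swap_image hf hadj hB h3⟩

end Pool.Agent.Dimer3D
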