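import Pool.Agent.Dimer3D.Connect
import Pool.Agent.Dimer3D.Transfer

/-!
# The box as a cylinder over the `j × m` grid
-/

namespace Pool.Agent.Dimer3D

/-- the `j × m` grid graph -/
def grid (j m : ℕ) : SimpleGraph (Fin j × Fin m) :=
  (SimpleGraph.pathGraph j).boxProd (SimpleGraph.pathGraph m)

theorem grid_adj {j m : ℕ} {x y : Fin j × Fin m} : (grid j m).Adj x y ↔
    ((x.1.val + 1 = y.1.val ∨ y.1.val + 1 = x.1.val) ∧ x.2 = y.2) ∨
    ((x.2.val + 1 = y.2.val ∨ y.2.val + 1 = x.2.val) ∧ x.1 = y.1) := by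
  rw [grid, SimpleGraph.boxProd_adj, SimpleGraph.pathGraph_adj, SimpleGraph.pathGraph_adj]

theorem grid_preconnected (j m : ℕ) : (grid j m).Preconnected :=
  (SimpleGraph.pathGraph_preconnected j).boxProd (SimpleGraph.pathGraph_preconnected m)

def gsign (j m : ℕ) (x : Fin j × Fin m) : ℤ := (-1) ^ (x.1.val + x.2.val)

theorem gsign_adj {j m : ℕ} : ∀ a b, (grid j m).Adj a b → gsign j m b = - gsign j m a := by
  intro a b h
  rw [grid_adj] at h
  simp only [gsign]
  rcases h with ⟨h | h, h'⟩ | ⟨h | h, h'⟩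
  · rw [← h, h', show a.1.val + 1 + b.2.val = (a.1.val + b.2.val) + 1 by ring, pow_succ]; ring
  · rw [← h, h', show b.1.val + 1 + b.2.val = (b.1.val + b.2.val) + 1 by ring, pow_succ]; ring
  · rw [← h, h', show b.1.val + (a.2.val + 1) = (b.1.val + a.2.val) + 1 by ring, pow_succ]; ring
  · rw [← h, h', show b.1.val + (b.2.val + 1) = (b.1.val + b.2.val) + 1 by ring, pow_succ]; ring

theorem gsign_one {j m : ℕ} (a : Fin j × Fin m) : gsign j m a = 1 ∨ gsign j m a = -1 :=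
  neg_one_pow_eq_or ℤ _

/-- the embedding of the cylinder in `ℤ³` -/
def emb (j m : ℕ) (x : (Fin j × Fin m) × ℕ) : ℤ × ℤ × ℤ :=
  ((x.1.1.val : ℤ) + 1, (x.1.2.val : ℤ) + 1, (x.2 : ℤ) + 1)

theorem emb_injective (j m : ℕ) : Function.Injective (emb j m) := by
  rintro ⟨⟨a, b⟩, i⟩ ⟨⟨a', b'⟩, i'⟩ h
  simp only [emb, Prod.mk.injEq] at h
  obtain ⟨h1, h2, h3⟩ := h
  have e1 : a = a' := Fin.ext (by omega)
  have e2 : b = b' := Fin.ext (by omega)
  have e3 : i = i' := by omega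
  rw [e1, e2, e3]

theorem abs_sub_eq_one_iff (a b : ℕ) :
    |((a : ℤ) + 1) - ((b : ℤ) + 1)| = 1 ↔ a + 1 = b ∨ b + 1 = a := by
  rw [abs_eq (by norm_num)]
  omega

theorem emb_adj (j m : ℕ) (x y : (Fin j × Fin m) × ℕ) :
    Adj3 (emb j m x) (emb j m y) ↔ cadj (grid j m) x y := by
  obtain ⟨⟨a, b⟩, i⟩ := x
  obtain ⟨⟨a', b'⟩, i'⟩ := y
  simp only [Adj3, emb, cadj, grid_adj, abs_sub_eq_one_iff, Prod.mk.injEq]
  have e1 : ((a.val : ℤ) + 1 = (a'.val : ℤ) + 1) ↔ a = a' := by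
    rw [Fin.ext_iff]; omega
  have e2 : ((b.val : ℤ) + 1 = (b'.val : ℤ) + 1) ↔ b = b' := by
    rw [Fin.ext_iff]; omega
  have e3 : ((i : ℤ) + 1 = (i' : ℤ) + 1) ↔ i = i' := by omega
  rw [e1, e2, e3]
  tauto

theorem emb_image (j m n : ℕ) :
    emb j m '' ((reg n ∅ : Finset ((Fin j × Fin m) × ℕ)) : Set ((Fin j × Fin m) × ℕ)) =
      Box j m n := by
  ext ⟨x, y, z⟩
  simp only [Set.mem_image, Finset.mem_coe, mem_reg, Finset.notMem_empty, false_and, or_false,
    Box, Set.mem_ofPred_eq]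
  constructor
  · rintro ⟨⟨⟨a, b⟩, i⟩, hi, he⟩
    simp only [emb, Prod.mk.injEq] at he hi
    have ha := a.isLt
    have hb := b.isLt
    omega
  · rintro ⟨⟨h1, h2⟩, ⟨h3, h4⟩, h5, h6⟩
    refine ⟨((⟨(x - 1).toNat, by omega⟩, ⟨(y - 1).toNat, by omega⟩), (z - 1).toNat), ?_, ?_⟩
    · show (z - 1).toNat < n
      omega
    · simp only [emb, Prod.mk.injEq]
      omega

/-- **Theorem.** Any two dimer configurations of the `j × m × n` box are joined by swaps along
alternating cycles of length at most `(jm)²`, whatever `n` is. -/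
theorem box_joined (j m n : ℕ) (τ τ' : Set (Sym2 (ℤ × ℤ × ℤ)))
    (h : IsConfig Adj3 (Box j m n) τ) (h' : IsConfig Adj3 (Box j m n) τ') :
    Joined Adj3 (Box j m n) ((j * m) ^ 2) τ τ' := by
  classical
  have hB := emb_image j m n
  obtain ⟨hc, hi⟩ := config_pullback (emb_injective j m) (emb_adj j m) hB h
  obtain ⟨hc', hi'⟩ := config_pullback (emb_injective j m) (emb_adj j m) hB h'
  rw [← hi, ← hi']
  apply joined_image (emb_injective j m) (emb_adj j m) hB
  obtain ⟨M, hM, hMe⟩ := exists_tiling (cadj_symm (grid j m)) hc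
  obtain ⟨N, hN, hNe⟩ := exists_tiling (cadj_symm (grid j m)) hc'
  rw [← hMe, ← hNe]
  have hconn := conn_reg (grid_preconnected j m) gsign_adj gsign_one n ∅ M N hM hN
  have hcard : Fintype.card (Fin j × Fin m) = j * m := by simp
  rw [hcard] at hconn
  apply joined_of_conn (sg := sgn (gsign j m)) _ _ hconn
  · intro x y hxy
    exact sgn_adj gsign_adj hxy
  · intro x hx
    simp only [sgn] at hx
    rcases gsign_one x.1 with h1 | h1 <;> rw [h1] at hx <;> simp at hx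

end Pool.Agent.Dimer3D
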