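import Pool.Agent.Dimer3D.Tile

/-!
# Connectedness of all tilings of a cylinder

`Near r K A M N`: `M` and `N` are tilings of `A` which differ in at most `K` points.
-/

namespace Pool.Agent.Dimer3D

open Finset

variable {α : Type*} [Fintype α] [DecidableEq α] {H : SimpleGraph α} {s : α → ℤ}

/-- the set of vertices of the top level covered horizontally -/
def hor (k : ℕ) (U : Finset α) (M : α × ℕ → α × ℕ) : Finset α :=
  U.filter fun a => M (a, k) ≠ (a, k - 1)

/-- one step: with a horizontal domino on the top level we can reach a tiling with fewer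
horizontally covered points on the top level -/
theorem reduce_step {K : ℕ} (hs : ∀ a b, H.Adj a b → s b = - s a)
    (hK : ∀ a b, H.Adj a b → 4 ≤ K) (k : ℕ)
    (hC : ∀ (U : Finset α) (M N : α × ℕ → α × ℕ), IsTiling (cadj H) (reg k U) M →
      IsTiling (cadj H) (reg k U) N → Conn (cadj H) K (reg k U) M N)
    (hT : ∀ U : Finset α, ∑ x ∈ reg k U, sgn s x = 0 → Tileable (cadj H) (reg k U))
    (U : Finset α) (M : α × ℕ → α × ℕ) (hM : IsTiling (cadj H) (reg (k + 1) U) M)
    (hne : (hor (k + 1) U M).Nonempty) :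
    ∃ N, IsTiling (cadj H) (reg (k + 1) U) N ∧ Conn (cadj H) K (reg (k + 1) U) M N ∧
      (hor (k + 1) U N).card < (hor (k + 1) U M).card := by
  classical
  obtain ⟨a, ha⟩ := hne
  rw [hor, Finset.mem_filter] at ha
  obtain ⟨haU, haM⟩ := ha
  have hatop : (a, k + 1) ∈ reg (k + 1) U := mem_reg.2 (Or.inr ⟨haU, rfl⟩)
  -- the partner of `a`
  have hadjM := hM.adj _ hatop
  have hmemM := hM.mem _ hatop
  obtain ⟨b, i, hbi⟩ : ∃ b i, M (a, k + 1) = (b, i) := ⟨_, _, rfl⟩
  rw [hbi] at hadjM hmemM haM
  simp only [Nat.add_sub_cancel] at haM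
  have hi : i = k + 1 ∧ H.Adj a b := by
    rcases hadjM with ⟨h1, h2⟩ | ⟨h1, h2 | h2⟩
    · exact ⟨h2.symm, h1⟩
    · rw [mem_reg] at hmemM
      simp only at h1 h2 hmemM
      omega
    · exfalso
      simp only at h1 h2
      apply haM
      rw [← h1, show i = k by omega]
  obtain ⟨rfl, hab⟩ := hi
  have hMb : M (b, k + 1) = (a, k + 1) := by
    rw [← hbi]; exact hM.inv _ hatop
  have hbU : b ∈ U := by
    rw [mem_reg] at hmemM
    rcases hmemM with h | h
    · simp at h
    · exact h.1
  have hab' : a ≠ b := hab.ne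
  have hab4 := hK a b hab
  -- vertical points
  set p : Finset α := U.filter fun c => M (c, k + 1) = (c, k) with hp
  have hap : a ∉ p := by
    rw [hp, Finset.mem_filter, hbi]
    rintro ⟨-, h⟩
    exact hab' (congrArg Prod.fst h).symm
  have hbp : b ∉ p := by
    rw [hp, Finset.mem_filter, hMb]
    rintro ⟨-, h⟩
    exact hab' (congrArg Prod.fst h)
  set A0 := reg k (univ \ p) with hA0
  have hsub : A0 ⊆ reg (k + 1) U := by
    intro x hx
    rw [hA0, mem_reg] at hx
    rw [mem_reg]
    left
    rcases hx with h | h <;> omega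
  have hcl : ∀ x ∈ A0, M x ∈ A0 := by
    intro x hx
    have hxr := hsub hx
    have hMr := hM.mem x hxr
    have hinv := hM.inv x hxr
    have hadj := hM.adj x hxr
    rw [hA0, mem_reg] at hx ⊢
    rw [mem_reg] at hMr
    have hx2 : x.2 ≤ k := by rcases hx with h | h <;> omega
    rcases hMr with h | ⟨h, h'⟩
    · by_cases hlt : (M x).2 < k
      · left; exact hlt
      · right
        have hk : (M x).2 = k := by omega
        refine ⟨?_, hk⟩
        rw [Finset.mem_sdiff]
        refine ⟨Finset.mem_univ _, ?_⟩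
        intro hmem
        rw [hp, Finset.mem_filter] at hmem
        have e1 : M ((M x).1, k + 1) = M x := by
          rw [hmem.2]
          exact Prod.ext rfl hk.symm
        have hin1 : ((M x).1, k + 1) ∈ reg (k + 1) U := mem_reg.2 (Or.inr ⟨hmem.1, rfl⟩)
        have e2 := hM.inv _ hin1
        rw [e1, hinv] at e2
        rw [e2] at hx2
        simp at hx2
    · exfalso
      have hvert : x = ((M x).1, k) := by
        rcases hadj with ⟨h1, h2⟩ | ⟨h1, h2 | h2⟩
        · omega
        · exact Prod.ext h1 (by simp only; omega)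
        · omega
      have hmem : (M x).1 ∈ p := by
        rw [hp, Finset.mem_filter]
        refine ⟨h, ?_⟩
        have : ((M x).1, k + 1) = M x := Prod.ext rfl h'.symm
        rw [this, hinv]
        exact hvert
      rcases hx with hlt | ⟨h1, h2⟩
      · rw [hvert] at hlt
        simp at hlt
      · rw [Finset.mem_sdiff] at h1
        apply h1.2
        rw [hvert]
        exact hmem
  have hrestr := hM.restr hsub hcl
  -- the new tiling below
  have hbal0 := IsTiling.balanced hs hrestr
  set V' := ((univ \ p).erase a).erase b with hV'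
  have hamem : (a, k) ∈ A0 := by
    rw [hA0, mem_reg]; right; simp [hap]
  have hbmem : (b, k) ∈ A0 := by
    rw [hA0, mem_reg]; right; simp [hbp]
  have hA0' : A0 = reg k V' ∪ {(a, k), (b, k)} := by
    ext ⟨c, j⟩
    rw [hA0, mem_reg, Finset.mem_union, mem_reg]
    simp only [hV', Finset.mem_erase, Finset.mem_sdiff, Finset.mem_univ, true_and,
      Finset.mem_insert, Finset.mem_singleton, Prod.mk.injEq]
    constructor
    · rintro (h | ⟨h1, h2⟩)
      · left; left; exact h
      · by_cases hca : c = a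
        · right; left; exact ⟨hca, h2⟩
        · by_cases hcb : c = b
          · right; right; exact ⟨hcb, h2⟩
          · left; right; exact ⟨⟨hcb, hca, h1⟩, h2⟩
    · rintro ((h | ⟨h1, h2⟩) | (⟨rfl, h2⟩ | ⟨rfl, h2⟩))
      · left; exact h
      · right; exact ⟨h1.2.2, h2⟩
      · right; exact ⟨hap, h2⟩
      · right; exact ⟨hbp, h2⟩
  have hdisj : Disjoint (reg k V') ({(a, k), (b, k)} : Finset (α × ℕ)) := by
    rw [Finset.disjoint_left]
    rintro ⟨c, j⟩ hx hx'
    rw [mem_reg] at hx
    simp only [hV', Finset.mem_erase, Finset.mem_insert, Finset.mem_singleton,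
      Prod.mk.injEq] at hx hx'
    rcases hx' with ⟨rfl, rfl⟩ | ⟨rfl, rfl⟩
    · rcases hx with h | h
      · exact lt_irrefl _ h
      · exact h.1.2.1 rfl
    · rcases hx with h | h
      · exact lt_irrefl _ h
      · exact h.1.1 rfl
  have hbal' : ∑ x ∈ reg k V', sgn s x = 0 := by
    rw [hA0', Finset.sum_union hdisj] at hbal0
    have e : ∑ x ∈ ({(a, k), (b, k)} : Finset (α × ℕ)), sgn s x = 0 := by
      rw [Finset.sum_pair (fun h => hab' (congrArg Prod.fst h))]
      simp only [sgn, hs _ _ hab]
      ring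
    linarith
  obtain ⟨T, hT'⟩ := hT V' hbal'
  -- tiling of `A0` containing the domino `(a,k),(b,k)`
  have hanV : (a, k) ∉ reg k V' := by
    intro h
    exact Finset.disjoint_left.1 hdisj h (by simp)
  have hbnV : (b, k) ∉ reg k V' := by
    intro h
    exact Finset.disjoint_left.1 hdisj h (by simp)
  have hne12 : ((a, k) : α × ℕ) ≠ (b, k) := fun h => hab' (congrArg Prod.fst h)
  set N0 : α × ℕ → α × ℕ := fun x => if x = (a, k) then (b, k) else if x = (b, k) then (a, k)
    else T x with hN0
  have hTout : ∀ x ∈ reg k V', T x ≠ (a, k) ∧ T x ≠ (b, k) := by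
    intro x hx
    have := hT'.mem x hx
    exact ⟨fun h => hanV (h ▸ this), fun h => hbnV (h ▸ this)⟩
  have hN0t : IsTiling (cadj H) A0 N0 := by
    refine ⟨?_, ?_, ?_, ?_⟩
    · intro x hx
      rw [hA0', Finset.mem_union] at hx
      simp only [hN0]
      by_cases h1 : x = (a, k)
      · simpa [h1] using hbmem
      · by_cases h2 : x = (b, k)
        · simpa [h1, h2, hne12.symm] using hamem
        · have hxV : x ∈ reg k V' := by
            rcases hx with h | h
            · exact h
            · simp [h1, h2] at h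
          rw [if_neg h1, if_neg h2, hA0']
          exact Finset.mem_union_left _ (hT'.mem x hxV)
    · intro x hx
      rw [hA0', Finset.mem_union] at hx
      simp only [hN0]
      by_cases h1 : x = (a, k)
      · rw [if_pos h1, h1]
        exact Or.inl ⟨hab, rfl⟩
      · by_cases h2 : x = (b, k)
        · rw [if_neg h1, if_pos h2, h2]
          exact Or.inl ⟨hab.symm, rfl⟩
        · have hxV : x ∈ reg k V' := by
            rcases hx with h | h
            · exact h
            · simp [h1, h2] at h
          rw [if_neg h1, if_neg h2]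
          exact hT'.adj x hxV
    · intro x hx
      rw [hA0', Finset.mem_union] at hx
      simp only [hN0]
      by_cases h1 : x = (a, k)
      · rw [if_pos h1, if_neg hne12.symm, if_pos rfl, h1]
      · by_cases h2 : x = (b, k)
        · rw [if_neg h1, if_pos h2, if_pos rfl, h2]
        · have hxV : x ∈ reg k V' := by
            rcases hx with h | h
            · exact h
            · simp [h1, h2] at h
          rw [if_neg h1, if_neg h2, if_neg (hTout x hxV).1, if_neg (hTout x hxV).2]
          exact hT'.inv x hxV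
    · intro x hx
      rw [hA0', Finset.mem_union, not_or] at hx
      simp only [hN0]
      have h12 : x ≠ (a, k) ∧ x ≠ (b, k) := by
        simpa [not_or] using hx.2
      rw [if_neg h12.1, if_neg h12.2]
      exact hT'.out x hx.1
  have hconn1 := conn_patch hM hsub hcl (hC _ _ _ hrestr hN0t)
  set M1 := patch A0 N0 M with hM1
  have hM1t : IsTiling (cadj H) (reg (k + 1) U) M1 := hM.patch hsub hcl hN0t
  have hatopA0 : (a, k + 1) ∉ A0 := by
    rw [hA0, mem_reg]; simp
  have hbtopA0 : (b, k + 1) ∉ A0 := by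
    rw [hA0, mem_reg]; simp
  have hM1a : M1 (a, k + 1) = (b, k + 1) := by
    simp only [hM1, patch, if_neg hatopA0, hbi]
  have hM1b : M1 (b, k + 1) = (a, k + 1) := by
    simp only [hM1, patch, if_neg hbtopA0, hMb]
  have hM1a' : M1 (a, k) = (b, k) := by
    simp only [hM1, patch, if_pos hamem, hN0, if_true]
  have hM1b' : M1 (b, k) = (a, k) := by
    simp only [hM1, patch, if_pos hbmem, hN0, if_neg hne12.symm, if_true]
  have hbtop : (b, k + 1) ∈ reg (k + 1) U := mem_reg.2 (Or.inr ⟨hbU, rfl⟩)
  have ha0r : (a, k) ∈ reg (k + 1) U := mem_reg.2 (Or.inl (by simp))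
  have hb0r : (b, k) ∈ reg (k + 1) U := mem_reg.2 (Or.inl (by simp))
  -- the flip
  set M2 : α × ℕ → α × ℕ := fun x =>
    if x = (a, k + 1) then (a, k) else if x = (a, k) then (a, k + 1) else
    if x = (b, k + 1) then (b, k) else if x = (b, k) then (b, k + 1) else M1 x with hM2
  have n1 : ((a, k + 1) : α × ℕ) ≠ (a, k) := by simp
  have n2 : ((a, k + 1) : α × ℕ) ≠ (b, k + 1) := fun h => hab' (congrArg Prod.fst h)
  have n3 : ((a, k + 1) : α × ℕ) ≠ (b, k) := fun h => hab' (congrArg Prod.fst h)
  have n4 : ((a, k) : α × ℕ) ≠ (b, k + 1) := fun h => hab' (congrArg Prod.fst h)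
  have n5 : ((b, k + 1) : α × ℕ) ≠ (b, k) := by simp
  have hrest : ∀ x ∈ reg (k + 1) U, x ≠ (a, k + 1) → x ≠ (a, k) → x ≠ (b, k + 1) →
      x ≠ (b, k) → M1 x ≠ (a, k + 1) ∧ M1 x ≠ (a, k) ∧ M1 x ≠ (b, k + 1) ∧ M1 x ≠ (b, k) := by
    intro x hx h1 h2 h3 h4
    have hinv := hM1t.inv x hx
    refine ⟨fun h => ?_, fun h => ?_, fun h => ?_, fun h => ?_⟩
    · rw [h, hM1a] at hinv; exact h3 hinv.symm
    · rw [h, hM1a'] at hinv; exact h4 hinv.symm
    · rw [h, hM1b] at hinv; exact h1 hinv.symm
    · rw [h, hM1b'] at hinv; exact h2 hinv.symm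
  have hM2t : IsTiling (cadj H) (reg (k + 1) U) M2 := by
    refine ⟨?_, ?_, ?_, ?_⟩
    · intro x hx
      simp only [hM2]
      split_ifs
      · exact ha0r
      · exact hatop
      · exact hb0r
      · exact hbtop
      · exact hM1t.mem x hx
    · intro x hx
      simp only [hM2]
      split_ifs with h1 h2 h3 h4
      · rw [h1]; exact Or.inr ⟨rfl, Or.inr rfl⟩
      · rw [h2]; exact Or.inr ⟨rfl, Or.inl rfl⟩
      · rw [h3]; exact Or.inr ⟨rfl, Or.inr rfl⟩
      · rw [h4]; exact Or.inr ⟨rfl, Or.inl rfl⟩
      · exact hM1t.adj x hx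
    · intro x hx
      by_cases h1 : x = (a, k + 1)
      · simp only [hM2, h1, if_true, if_neg n1.symm]
      · by_cases h2 : x = (a, k)
        · simp only [hM2, h2, if_true, if_neg n1.symm]
        · by_cases h3 : x = (b, k + 1)
          · simp only [hM2, h3, if_true, if_neg n2.symm, if_neg n4.symm, if_neg n3.symm,
              if_neg hne12.symm, if_neg n5.symm]
          · by_cases h4 : x = (b, k)
            · simp only [hM2, h4, if_true, if_neg n2.symm, if_neg n4.symm, if_neg n3.symm,
                if_neg hne12.symm, if_neg n5.symm]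
            · obtain ⟨r1, r2, r3, r4⟩ := hrest x hx h1 h2 h3 h4
              simp only [hM2, if_neg h1, if_neg h2, if_neg h3, if_neg h4, if_neg r1, if_neg r2,
                if_neg r3, if_neg r4]
              exact hM1t.inv x hx
    · intro x hx
      have h1 : x ≠ (a, k + 1) := fun h => hx (h ▸ hatop)
      have h2 : x ≠ (a, k) := fun h => hx (h ▸ ha0r)
      have h3 : x ≠ (b, k + 1) := fun h => hx (h ▸ hbtop)
      have h4 : x ≠ (b, k) := fun h => hx (h ▸ hb0r)
      simp only [hM2, if_neg h1, if_neg h2, if_neg h3, if_neg h4]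
      exact hM1t.out x hx
  have hnear : Near (cadj H) K (reg (k + 1) U) M1 M2 := by
    refine ⟨hM1t, hM2t, le_trans (le_trans (Finset.card_le_card (t :=
      ({(a, k + 1), (a, k), (b, k + 1), (b, k)} : Finset (α × ℕ))) ?_) ?_) hab4⟩
    · intro x hx
      rw [Finset.mem_filter] at hx
      by_contra hcon
      simp only [Finset.mem_insert, Finset.mem_singleton, not_or] at hcon
      obtain ⟨h1, h2, h3, h4⟩ := hcon
      apply hx.2
      simp only [hM2, if_neg h1, if_neg h2, if_neg h3, if_neg h4]
    · exact Finset.card_le_four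
  refine ⟨M2, hM2t, hconn1.tail hnear, ?_⟩
  apply Finset.card_lt_card
  rw [Finset.ssubset_iff_of_subset]
  · refine ⟨a, ?_, ?_⟩
    · rw [hor, Finset.mem_filter, hbi]
      refine ⟨haU, ?_⟩
      intro h
      exact hab' (congrArg Prod.fst h).symm
    · rw [hor, Finset.mem_filter]
      rintro ⟨-, h⟩
      apply h
      simp only [hM2, if_true, Nat.add_sub_cancel]
  · intro c hc
    rw [hor, Finset.mem_filter] at hc ⊢
    refine ⟨hc.1, ?_⟩
    intro h
    apply hc.2
    have hca : c ≠ a := by
      rintro rfl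
      apply hc.2
      simp only [hM2, if_true, Nat.add_sub_cancel]
    have hcb : c ≠ b := by
      rintro rfl
      apply hc.2
      simp only [hM2, if_neg n2.symm, if_neg n4.symm, if_true, Nat.add_sub_cancel]
    have c1 : ((c, k + 1) : α × ℕ) ≠ (a, k + 1) := fun h => hca (congrArg Prod.fst h)
    have c2 : ((c, k + 1) : α × ℕ) ≠ (a, k) := fun h => hca (congrArg Prod.fst h)
    have c3 : ((c, k + 1) : α × ℕ) ≠ (b, k + 1) := fun h => hcb (congrArg Prod.fst h)
    have c4 : ((c, k + 1) : α × ℕ) ≠ (b, k) := fun h => hcb (congrArg Prod.fst h)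
    have c5 : ((c, k + 1) : α × ℕ) ∉ A0 := by
      rw [hA0, mem_reg]; simp
    simp only [hM2, if_neg c1, if_neg c2, if_neg c3, if_neg c4, hM1, patch, if_neg c5]
    exact h

/-- every tiling is connected to one with all points of the top level covered vertically -/
theorem reduce_all {K : ℕ} (hs : ∀ a b, H.Adj a b → s b = - s a)
    (hK : ∀ a b, H.Adj a b → 4 ≤ K) (k : ℕ)
    (hC : ∀ (U : Finset α) (M N : α × ℕ → α × ℕ), IsTiling (cadj H) (reg k U) M →
      IsTiling (cadj H) (reg k U) N → Conn (cadj H) K (reg k U) M N)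
    (hT : ∀ U : Finset α, ∑ x ∈ reg k U, sgn s x = 0 → Tileable (cadj H) (reg k U))
    (U : Finset α) : ∀ (c : ℕ) (M : α × ℕ → α × ℕ), IsTiling (cadj H) (reg (k + 1) U) M →
    (hor (k + 1) U M).card ≤ c →
    ∃ N, IsTiling (cadj H) (reg (k + 1) U) N ∧ Conn (cadj H) K (reg (k + 1) U) M N ∧
      ∀ a ∈ U, N (a, k + 1) = (a, k) := by
  intro c
  induction c with
  | zero =>
    intro M hM hc
    refine ⟨M, hM, Relation.ReflTransGen.refl, ?_⟩
    intro a ha
    by_contra hcon
    have : a ∈ hor (k + 1) U M := by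
      rw [hor, Finset.mem_filter]
      exact ⟨ha, hcon⟩
    have := Finset.card_pos.2 ⟨a, this⟩
    omega
  | succ c ih =>
    intro M hM hc
    by_cases hne : (hor (k + 1) U M).Nonempty
    · obtain ⟨N, hN, hMN, hlt⟩ := reduce_step hs hK k hC hT U M hM hne
      obtain ⟨N', hN', hNN', hv⟩ := ih N hN (by omega)
      exact ⟨N', hN', hMN.trans hNN', hv⟩
    · rw [Finset.not_nonempty_iff_eq_empty] at hne
      apply ih M hM
      rw [hne]; simp

theorem conn_step {K : ℕ} (hs : ∀ a b, H.Adj a b → s b = - s a)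
    (hK : ∀ a b, H.Adj a b → 4 ≤ K) (k : ℕ)
    (hC : ∀ (U : Finset α) (M N : α × ℕ → α × ℕ), IsTiling (cadj H) (reg k U) M →
      IsTiling (cadj H) (reg k U) N → Conn (cadj H) K (reg k U) M N)
    (hT : ∀ U : Finset α, ∑ x ∈ reg k U, sgn s x = 0 → Tileable (cadj H) (reg k U))
    (U : Finset α) (M N : α × ℕ → α × ℕ) (hM : IsTiling (cadj H) (reg (k + 1) U) M)
    (hN : IsTiling (cadj H) (reg (k + 1) U) N) : Conn (cadj H) K (reg (k + 1) U) M N := by
  obtain ⟨M', hM', hMM', hv⟩ := reduce_all hs hK k hC hT U _ M hM le_rfl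
  obtain ⟨N', hN', hNN', hv'⟩ := reduce_all hs hK k hC hT U _ N hN le_rfl
  refine hMM'.trans (Conn.trans ?_ hNN'.symm)
  set A0 := reg k (univ \ U) with hA0
  have hsub : A0 ⊆ reg (k + 1) U := by
    intro x hx
    rw [hA0, mem_reg] at hx
    rw [mem_reg]
    left
    rcases hx with h | h <;> omega
  have hcl : ∀ P : α × ℕ → α × ℕ, IsTiling (cadj H) (reg (k + 1) U) P →
      (∀ a ∈ U, P (a, k + 1) = (a, k)) → ∀ x ∈ A0, P x ∈ A0 := by
    intro P hP hPv x hx
    have hxr := hsub hx
    have hPr := hP.mem x hxr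
    have hinv := hP.inv x hxr
    rw [hA0, mem_reg] at hx ⊢
    rw [mem_reg] at hPr
    rcases hPr with h | ⟨h, h'⟩
    · by_cases hlt : (P x).2 < k
      · left; exact hlt
      · right
        have hk : (P x).2 = k := by omega
        refine ⟨?_, hk⟩
        rw [Finset.mem_sdiff]
        refine ⟨Finset.mem_univ _, ?_⟩
        intro hmem
        have e1 := hPv _ hmem
        have e3 : P ((P x).1, k + 1) = P x := by
          rw [e1]; exact Prod.ext rfl hk.symm
        have hin1 : ((P x).1, k + 1) ∈ reg (k + 1) U := mem_reg.2 (Or.inr ⟨hmem, rfl⟩)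
        have e2 := hP.inv _ hin1
        rw [e3, hinv] at e2
        rw [e2] at hx
        rcases hx with h | h
        · simp at h
        · simp at h
    · exfalso
      have e1 := hPv _ h
      have e3 : ((P x).1, k + 1) = P x := Prod.ext rfl h'.symm
      rw [e3, hinv] at e1
      rw [e1] at hx
      rcases hx with h1 | h1
      · simp at h1
      · simp only [Finset.mem_sdiff] at h1
        exact h1.1.2 h
  have hc1 := hC _ _ _ (hM'.restr hsub (hcl M' hM' hv)) (hN'.restr hsub (hcl N' hN' hv'))
  have := conn_patch hM' hsub (hcl M' hM' hv) hc1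
  have heq : patch A0 (restr A0 N') M' = N' := by
    funext x
    by_cases hx : x ∈ A0
    · simp [patch, restr, hx]
    · simp only [patch, if_neg hx]
      by_cases hxr : x ∈ reg (k + 1) U
      · rw [mem_reg] at hxr
        rw [hA0, mem_reg, not_or] at hx
        obtain ⟨c, i⟩ := x
        simp only [Finset.mem_sdiff, Finset.mem_univ, true_and, not_and] at hxr hx
        rcases hxr with h | ⟨h, h'⟩
        · have hik : i = k := by omega
          subst hik
          have hcU : c ∈ U := by
            by_contra hc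
            exact hx.2 hc rfl
          have e1 := hM'.inv _ (mem_reg.2 (Or.inr ⟨hcU, rfl⟩) : (c, i + 1) ∈ reg (i + 1) U)
          have e2 := hN'.inv _ (mem_reg.2 (Or.inr ⟨hcU, rfl⟩) : (c, i + 1) ∈ reg (i + 1) U)
          rw [hv c hcU] at e1
          rw [hv' c hcU] at e2
          rw [e1, e2]
        · subst h'
          rw [hv c h, hv' c h]
      · rw [hM'.out x hxr, hN'.out x hxr]
  rwa [heq] at this

/-- **Main theorem for cylinders.** -/
theorem conn_reg (hH : H.Preconnected) (hs : ∀ a b, H.Adj a b → s b = - s a)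
    (hs1 : ∀ a, s a = 1 ∨ s a = -1) (k : ℕ) : ∀ (U : Finset α) (M N : α × ℕ → α × ℕ),
    IsTiling (cadj H) (reg k U) M → IsTiling (cadj H) (reg k U) N →
    Conn (cadj H) (Fintype.card α ^ 2) (reg k U) M N := by
  have hK : ∀ a b, H.Adj a b → 4 ≤ Fintype.card α ^ 2 := by
    intro a b hab
    have h2 : 1 < Fintype.card α := Fintype.one_lt_card_iff.2 ⟨a, b, hab.ne⟩
    nlinarith
  induction k with
  | zero =>
    intro U M N hM hN
    apply Relation.ReflTransGen.single
    refine ⟨hM, hN, le_trans (Finset.card_le_card (Finset.filter_subset _ _)) ?_⟩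
    refine le_trans (card_reg 0 U) ?_
    rcases Nat.eq_zero_or_pos (Fintype.card α) with h | h
    · rw [h]; simp
    · nlinarith
  | succ k ih =>
    by_cases hk : Fintype.card α ≤ k + 1
    · intro U M N hM hN
      exact conn_step hs hK k ih (fun V hV => tileable_reg hH hs hs1 k hk V hV) U M N hM hN
    · intro U M N hM hN
      apply Relation.ReflTransGen.single
      refine ⟨hM, hN, le_trans (Finset.card_le_card (Finset.filter_subset _ _)) ?_⟩
      refine le_trans (card_reg (k + 1) U) ?_
      push Not at hk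
      nlinarith

end Pool.Agent.Dimer3D
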