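import Pool.Agent.Dimer3D.Tiling

/-!
# Tilings of cylinders over a finite connected bipartite graph

`H` is a finite connected graph on `α` with a sign `s : α → ℤ`, `s = ±1`, changing along edges.
The cylinder has vertex set `α × ℕ`.  `reg k U` consists of the levels `0, …, k-1` and of the
part `U` of level `k`.
-/

namespace Pool.Agent.Dimer3D

open Finset

variable {α : Type*} [Fintype α] [DecidableEq α]

/-- adjacency in the cylinder over `H` -/
def cadj (H : SimpleGraph α) (x y : α × ℕ) : Prop :=
  (H.Adj x.1 y.1 ∧ x.2 = y.2) ∨ (x.1 = y.1 ∧ (x.2 + 1 = y.2 ∨ y.2 + 1 = x.2))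

omit [Fintype α] [DecidableEq α] in
theorem cadj_symm (H : SimpleGraph α) : ∀ x y, cadj H x y → cadj H y x := by
  rintro x y (h | h)
  · exact Or.inl ⟨h.1.symm, h.2.symm⟩
  · exact Or.inr ⟨h.1.symm, h.2.symm⟩

omit [Fintype α] [DecidableEq α] in
theorem cadj_ne (H : SimpleGraph α) {x y : α × ℕ} (h : cadj H x y) : x ≠ y := by
  rintro rfl
  rcases h with h | h
  · exact h.1.ne rfl
  · omega

def sgn (s : α → ℤ) (x : α × ℕ) : ℤ := s x.1 * (-1) ^ x.2

/-- levels `0, …, k-1` and the part `U` of level `k` -/
def reg (k : ℕ) (U : Finset α) : Finset (α × ℕ) :=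
  (univ ×ˢ range k) ∪ (U ×ˢ {k})

theorem mem_reg {k : ℕ} {U : Finset α} {x : α × ℕ} :
    x ∈ reg k U ↔ x.2 < k ∨ (x.1 ∈ U ∧ x.2 = k) := by
  obtain ⟨a, i⟩ := x
  simp only [reg, Finset.mem_union, Finset.mem_product, Finset.mem_univ, true_and,
    Finset.mem_range, Finset.mem_singleton]

theorem card_reg (k : ℕ) (U : Finset α) : (reg k U).card ≤ (k + 1) * Fintype.card α := by
  calc (reg k U).card ≤ (univ ×ˢ range (k + 1) : Finset (α × ℕ)).card := by
        apply Finset.card_le_card
        intro x hx
        rw [mem_reg] at hx
        simp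
        omega
    _ = (k + 1) * Fintype.card α := by
        rw [Finset.card_product, Finset.card_range, Finset.card_univ, mul_comm]

variable {H : SimpleGraph α} {s : α → ℤ}

omit [Fintype α] [DecidableEq α] in
theorem sgn_adj (hs : ∀ a b, H.Adj a b → s b = - s a) {x y : α × ℕ} (h : cadj H x y) :
    sgn s y = - sgn s x := by
  rcases h with ⟨h1, h2⟩ | ⟨h1, h2 | h2⟩
  · simp only [sgn, hs _ _ h1, h2]; ring
  · simp only [sgn, h1, ← h2, pow_succ]; ring
  · simp only [sgn, h1, ← h2, pow_succ]; ring

omit [Fintype α] in
/-- a tiled region is balanced -/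
theorem IsTiling.balanced (hs : ∀ a b, H.Adj a b → s b = - s a) {A : Finset (α × ℕ)}
    {M : α × ℕ → α × ℕ} (h : IsTiling (cadj H) A M) : ∑ x ∈ A, sgn s x = 0 := by
  have h1 : ∑ x ∈ A, sgn s x = ∑ x ∈ A, sgn s (M x) := by
    apply Finset.sum_bij (fun x _ => M x)
    · intro x hx; exact h.mem x hx
    · intro x hx y hy hxy
      rw [← h.inv x hx, ← h.inv y hy, hxy]
    · intro y hy
      exact ⟨M y, h.mem y hy, h.inv y hy⟩
    · intro x hx
      rw [h.inv x hx]
  have h2 : ∑ x ∈ A, sgn s (M x) = - ∑ x ∈ A, sgn s x := by
    rw [← Finset.sum_neg_distrib]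
    apply Finset.sum_congr rfl
    intro x hx
    exact sgn_adj hs (h.adj x hx)
  linarith

omit [Fintype α] in
theorem tileable_vert (X : Finset α) (l : ℕ) :
    Tileable (cadj H) (X ×ˢ ({l, l + 1} : Finset ℕ)) := by
  refine ⟨fun x => if x.1 ∈ X ∧ x.2 = l then (x.1, l + 1) else
    if x.1 ∈ X ∧ x.2 = l + 1 then (x.1, l) else x, ?_, ?_, ?_, ?_⟩
  · rintro ⟨a, i⟩ hx
    simp only [Finset.mem_product, Finset.mem_insert, Finset.mem_singleton] at hx
    rcases hx with ⟨ha, rfl | rfl⟩
    · simp [ha]
    · simp [ha]
  · rintro ⟨a, i⟩ hx
    simp only [Finset.mem_product, Finset.mem_insert, Finset.mem_singleton] at hx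
    rcases hx with ⟨ha, rfl | rfl⟩
    · simp [ha, cadj]
    · simp [ha, cadj]
  · rintro ⟨a, i⟩ hx
    simp only [Finset.mem_product, Finset.mem_insert, Finset.mem_singleton] at hx
    rcases hx with ⟨ha, rfl | rfl⟩
    · simp [ha]
    · simp [ha]
  · rintro ⟨a, i⟩ hx
    simp only [Finset.mem_product, Finset.mem_insert, Finset.mem_singleton, not_and, not_or] at hx
    by_cases ha : a ∈ X
    · have := hx ha
      simp [ha, this.1, this.2]
    · simp [ha]

omit [Fintype α] in
/-- The path lemma: two full levels over `X`, plus the two end points of a path of odd length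
whose interior is in `X`, on the lower level. -/
theorem tileable_path (l : ℕ) : ∀ (n : ℕ) (X : Finset α) {u v : α} (p : H.Walk u v),
    p.length = 2 * n + 1 → p.IsPath → u ∉ X → v ∉ X →
    (∀ z ∈ p.support, z ≠ u → z ≠ v → z ∈ X) →
    Tileable (cadj H) (X ×ˢ ({l, l + 1} : Finset ℕ) ∪ {(u, l), (v, l)}) := by
  intro n
  induction n with
  | zero =>
    intro X u v p hl hp hu hv hint
    have hadj : H.Adj u v := by
      apply SimpleGraph.Walk.adj_of_length_eq_one (p := p)
      simpa using hl
    apply Tileable.union (tileable_vert X l)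
    · apply tileable_pair (cadj_symm H)
      · exact Or.inl ⟨hadj, rfl⟩
      · intro h; exact hadj.ne (congrArg Prod.fst h)
    · rw [Finset.disjoint_left]
      rintro ⟨a, i⟩ hx hx'
      simp only [Finset.mem_product, Finset.mem_insert, Finset.mem_singleton, Prod.mk.injEq] at hx hx'
      rcases hx' with h | h
      · exact hu (h.1 ▸ hx.1)
      · exact hv (h.1 ▸ hx.1)
  | succ n ih =>
    intro X u v p hl hp hu hv hint
    cases p with
    | nil => simp at hl
    | @cons _ d1 _ h1 p1 =>
      cases p1 with
      | nil => simp at hl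
      | @cons _ d2 _ h2 q =>
        rw [SimpleGraph.Walk.cons_isPath_iff] at hp
        obtain ⟨hp1, hup⟩ := hp
        rw [SimpleGraph.Walk.cons_isPath_iff] at hp1
        obtain ⟨hq, hd1q⟩ := hp1
        simp only [SimpleGraph.Walk.support_cons, List.mem_cons, not_or] at hup
        have hud1 : u ≠ d1 := hup.1
        have huq : u ∉ q.support := hup.2
        have hlq : q.length = 2 * n + 1 := by
          simp only [SimpleGraph.Walk.length_cons] at hl
          omega
        have hd2q : d2 ∈ q.support := q.start_mem_support
        have hvq : v ∈ q.support := q.end_mem_support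
        have hd2v : d2 ≠ v := by
          intro h
          subst h
          have h0 := SimpleGraph.Walk.length_eq_zero_iff.2 (SimpleGraph.Walk.isPath_iff_nil.1 hq)
          omega
        have hd1v : d1 ≠ v := fun h => hd1q (h ▸ hvq)
        have hd1d2 : d1 ≠ d2 := fun h => hd1q (h ▸ hd2q)
        have hud2 : u ≠ d2 := fun h => huq (h ▸ hd2q)
        have hd1X : d1 ∈ X := by
          apply hint d1 _ hud1.symm hd1v
          simp
        have hd2X : d2 ∈ X := by
          apply hint d2 _ hud2.symm hd2v
          simp
        set X' := (X.erase d1).erase d2 with hX'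
        have hrec := ih X' q hlq hq (by simp [hX']) (by
            rw [hX']; simp [hv]) (by
            intro z hz hzd2 hzv
            rw [hX']
            simp only [Finset.mem_erase]
            refine ⟨hzd2, fun h => hd1q (h ▸ hz), ?_⟩
            apply hint z _ (fun h => huq (h ▸ hz)) hzv
            simp [hz])
        have e1 : Tileable (cadj H) ({(u, l), (d1, l)} : Finset (α × ℕ)) := by
          apply tileable_pair (cadj_symm H)
          · exact Or.inl ⟨h1, rfl⟩
          · intro h; exact hud1 (congrArg Prod.fst h)
        have e2 : Tileable (cadj H) ({(d1, l + 1), (d2, l + 1)} : Finset (α × ℕ)) := by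
          apply tileable_pair (cadj_symm H)
          · exact Or.inl ⟨h2, rfl⟩
          · intro h; exact hd1d2 (congrArg Prod.fst h)
        have e12 : Tileable (cadj H) (({(u, l), (d1, l)} : Finset (α × ℕ)) ∪
            {(d1, l + 1), (d2, l + 1)}) := by
          apply Tileable.union e1 e2
          rw [Finset.disjoint_left]
          rintro ⟨a, i⟩ hx hx'
          simp only [Finset.mem_insert, Finset.mem_singleton, Prod.mk.injEq] at hx hx'
          omega
        have e123 := Tileable.union hrec e12 (by
          rw [Finset.disjoint_left]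
          rintro ⟨a, i⟩ hx hx'
          simp only [Finset.mem_union, Finset.mem_product, Finset.mem_insert,
            Finset.mem_singleton, Prod.mk.injEq, hX', Finset.mem_erase] at hx hx'
          rcases hx' with (h | h) | (h | h)
          · obtain ⟨rfl, rfl⟩ := h
            rcases hx with h' | h' | h'
            · exact hu h'.1.2.2
            · exact hud2 h'.1
            · exact huq (h'.1 ▸ hvq)
          · obtain ⟨rfl, rfl⟩ := h
            rcases hx with h' | h' | h'
            · exact h'.1.2.1 rfl
            · exact hd1d2 h'.1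
            · exact hd1v h'.1
          · obtain ⟨rfl, rfl⟩ := h
            rcases hx with h' | h' | h'
            · exact h'.1.2.1 rfl
            · omega
            · omega
          · obtain ⟨rfl, rfl⟩ := h
            rcases hx with h' | h' | h'
            · exact h'.1.1 rfl
            · omega
            · omega)
        convert e123 using 1
        ext ⟨a, i⟩
        simp only [Finset.mem_union, Finset.mem_product, Finset.mem_insert,
            Finset.mem_singleton, Prod.mk.injEq, hX', Finset.mem_erase]
        constructor
        · rintro (⟨ha, hi⟩ | (h | h))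
          · by_cases had1 : a = d1
            · subst had1
              rcases hi with rfl | rfl
              · right; left; right; exact ⟨rfl, rfl⟩
              · right; right; left; exact ⟨rfl, rfl⟩
            · by_cases had2 : a = d2
              · subst had2
                rcases hi with rfl | rfl
                · left; right; left; exact ⟨rfl, rfl⟩
                · right; right; right; exact ⟨rfl, rfl⟩
              · left; left; exact ⟨⟨had2, had1, ha⟩, hi⟩
          · right; left; left; exact h
          · left; right; right; exact h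
        · rintro ((⟨ha, hi⟩ | (h | h)) | ((h | h) | (h | h)))
          · left; exact ⟨ha.2.2, hi⟩
          · left; exact ⟨h.1 ▸ hd2X, Or.inl h.2⟩
          · right; right; exact h
          · right; left; exact h
          · left; exact ⟨h.1 ▸ hd1X, Or.inl h.2⟩
          · left; exact ⟨h.1 ▸ hd1X, Or.inr h.2⟩
          · left; exact ⟨h.1 ▸ hd2X, Or.inr h.2⟩

end Pool.Agent.Dimer3D
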