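import Mathlib

/-!
# Dimer configurations of boxes in `ℤ³` and swaps along alternating cycles: the definitions
-/

namespace Pool.Agent.Dimer3D

/-- Two points of `ℤ³` are adjacent when they differ by `1` in exactly one coordinate. -/
def Adj3 (x y : ℤ × ℤ × ℤ) : Prop :=
  (|x.1 - y.1| = 1 ∧ x.2.1 = y.2.1 ∧ x.2.2 = y.2.2) ∨
  (x.1 = y.1 ∧ |x.2.1 - y.2.1| = 1 ∧ x.2.2 = y.2.2) ∨
  (x.1 = y.1 ∧ x.2.1 = y.2.1 ∧ |x.2.2 - y.2.2| = 1)

/-- The `j × m × n` box `{1,…,j} × {1,…,m} × {1,…,n}`. -/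
def Box (j m n : ℕ) : Set (ℤ × ℤ × ℤ) :=
  {x | (1 ≤ x.1 ∧ x.1 ≤ j) ∧ (1 ≤ x.2.1 ∧ x.2.1 ≤ m) ∧ (1 ≤ x.2.2 ∧ x.2.2 ≤ n)}

variable {V : Type*}

/-- `τ` (a set of unordered pairs) is a perfect matching of the graph induced by the adjacency
relation `adj` on the region `B`. -/
def IsConfig (adj : V → V → Prop) (B : Set V) (τ : Set (Sym2 V)) : Prop :=
  (∀ e ∈ τ, ∃ x ∈ B, ∃ y ∈ B, adj x y ∧ e = s(x, y)) ∧
  ∀ x ∈ B, ∃! e, e ∈ τ ∧ x ∈ e

/-- `c 0, c 1, …, c (k-1)` are the successive vertices of a cycle of length `k ≥ 3` in the region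
`B`; the sequence `c` is continued periodically. -/
structure IsCycleIn (adj : V → V → Prop) (B : Set V) (k : ℕ) (c : ℕ → V) : Prop where
  three_le : 3 ≤ k
  periodic : ∀ i, c (i + k) = c i
  distinct : ∀ i < k, ∀ i' < k, c i = c i' → i = i'
  mem : ∀ i, c i ∈ B
  adj : ∀ i, adj (c i) (c (i + 1))

/-- the edge set of the cycle `c` -/
def cycleEdges (c : ℕ → V) : Set (Sym2 V) := {e | ∃ i, e = s(c i, c (i + 1))}

/-- the edges of `c` lie alternately in `τ` and outside `τ` -/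
def Alternating (τ : Set (Sym2 V)) (c : ℕ → V) : Prop :=
  ∀ i, s(c i, c (i + 1)) ∈ τ ↔ s(c (i + 1), c (i + 2)) ∉ τ

/-- `τ'` is obtained from `τ` by a `k`-swap: by swapping an alternating cycle of length `k` -/
def IsSwap (adj : V → V → Prop) (B : Set V) (k : ℕ) (τ τ' : Set (Sym2 V)) : Prop :=
  ∃ c : ℕ → V, IsCycleIn adj B k c ∧ Alternating τ c ∧ τ' = symmDiff τ (cycleEdges c)

/-- `τ` and `τ'` are joined by a finite sequence of dimer configurations of `B` in which each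
one is obtained from the previous one by a `k`-swap with `k ≤ K` -/
def Joined (adj : V → V → Prop) (B : Set V) (K : ℕ) (τ τ' : Set (Sym2 V)) : Prop :=
  Relation.ReflTransGen
    (fun a b => IsConfig adj B a ∧ IsConfig adj B b ∧ ∃ k ≤ K, IsSwap adj B k a b) τ τ'

end Pool.Agent.Dimer3D
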