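import Pool.Agent.Dimer3D.Tiling
import Pool.Agent.Dimer3D.Public

/-!
# Two tilings which differ in at most `K` points are joined by swaps of length at most `K`
-/

namespace Pool.Agent.Dimer3D

open Finset Function

variable {V : Type*} [DecidableEq V] {r : V → V → Prop} {A : Finset V} {M N : V → V}

/-- the edge set of a tiling -/
def edges (A : Finset V) (M : V → V) : Set (Sym2 V) := {e | ∃ x ∈ A, e = s(x, M x)}

omit [DecidableEq V] in
theorem IsTiling.invol (h : IsTiling r A M) : Involutive M := by
  intro x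
  by_cases hx : x ∈ A
  · exact h.inv x hx
  · rw [h.out x hx, h.out x hx]

omit [DecidableEq V] in
theorem mem_edges_iff (h : IsTiling r A M) {x y : V} :
    s(x, y) ∈ edges A M ↔ x ∈ A ∧ M x = y := by
  constructor
  · rintro ⟨z, hz, hzz⟩
    rw [Sym2.eq_iff] at hzz
    rcases hzz with ⟨rfl, rfl⟩ | ⟨rfl, rfl⟩
    · exact ⟨hz, rfl⟩
    · exact ⟨h.mem _ hz, h.inv _ hz⟩
  · rintro ⟨hx, rfl⟩
    exact ⟨x, hx, rfl⟩

omit [DecidableEq V] in
theorem IsTiling.isConfig (h : IsTiling r A M) : IsConfig r (A : Set V) (edges A M) := by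
  constructor
  · rintro e ⟨x, hx, rfl⟩
    exact ⟨x, hx, M x, h.mem x hx, h.adj x hx, rfl⟩
  · intro x hx
    refine ⟨s(x, M x), ⟨⟨x, hx, rfl⟩, by simp⟩, ?_⟩
    rintro e ⟨⟨z, hz, rfl⟩, hxe⟩
    rw [Sym2.mem_iff] at hxe
    rcases hxe with rfl | rfl
    · rfl
    · rw [h.inv z hz, Sym2.eq_swap]

/-- the vertices of the cycle through `x` of the symmetric difference -/
def cyc (M N : V → V) (x : V) (i : ℕ) : V :=
  if i % 2 = 0 then (N ∘ M)^[i / 2] x else M ((N ∘ M)^[i / 2] x)

omit [DecidableEq V] in
theorem cyc_even (M N : V → V) (x : V) (i : ℕ) : cyc M N x (2 * i) = (N ∘ M)^[i] x := by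
  simp [cyc]

omit [DecidableEq V] in
theorem cyc_odd (M N : V → V) (x : V) (i : ℕ) : cyc M N x (2 * i + 1) = M ((N ∘ M)^[i] x) := by
  have h1 : (2 * i + 1) % 2 = 1 := by omega
  have h2 : (2 * i + 1) / 2 = i := by omega
  simp [cyc, h1, h2]

omit [DecidableEq V] in
theorem cyc_even_succ (M N : V → V) (x : V) (i : ℕ) :
    cyc M N x (2 * i + 1 + 1) = N (cyc M N x (2 * i + 1)) := by
  rw [show 2 * i + 1 + 1 = 2 * (i + 1) by ring, cyc_even, cyc_odd, Function.iterate_succ_apply']
  rfl

section

variable (hM : IsTiling r A M) (hN : IsTiling r A N)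

include hM hN

omit [DecidableEq V] in
theorem changed_M {y : V} (hy : M y ≠ N y) : M (M y) ≠ N (M y) := by
  intro h
  rw [hM.invol y] at h
  have := hN.invol (M y)
  rw [← h] at this
  exact hy this.symm

omit [DecidableEq V] in
theorem changed_N {y : V} (hy : M y ≠ N y) : M (N y) ≠ N (N y) := by
  intro h
  rw [hN.invol y] at h
  have := hM.invol (N y)
  rw [h] at this
  exact hy this

omit [DecidableEq V] in
theorem cyc_mem {x : V} (hx : x ∈ A) (hxc : M x ≠ N x) (i : ℕ) :
    cyc M N x i ∈ A ∧ M (cyc M N x i) ≠ N (cyc M N x i) := by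
  induction i with
  | zero => simpa [cyc] using ⟨hx, hxc⟩
  | succ i ih =>
    rcases Nat.even_or_odd' i with ⟨t, rfl | rfl⟩
    · rw [cyc_odd, ← cyc_even]
      exact ⟨hM.mem _ ih.1, changed_M hM hN ih.2⟩
    · rw [cyc_even_succ]
      exact ⟨hN.mem _ ih.1, changed_N hM hN ih.2⟩

omit [DecidableEq V] in
theorem exists_period {x : V} (hx : x ∈ A) : 0 < minimalPeriod (N ∘ M) x := by
  classical
  have hinj : Injective (N ∘ M) := hN.invol.injective.comp hM.invol.injective
  have hmem : ∀ i, (N ∘ M)^[i] x ∈ A := by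
    intro i
    induction i with
    | zero => simpa using hx
    | succ i ih =>
      rw [Function.iterate_succ_apply']
      exact hN.mem _ (hM.mem _ ih)
  obtain ⟨i, hi, i', hi', hne, heq⟩ :=
    Finset.exists_ne_map_eq_of_card_lt_of_maps_to (s := Finset.range (A.card + 1)) (t := A)
      (by simp) (f := fun i => (N ∘ M)^[i] x) (fun i _ => hmem i)
  wlog hlt : i < i' generalizing i i'
  · exact this i' hi' i hi hne.symm heq.symm (by omega)
  have hp : IsPeriodicPt (N ∘ M) (i' - i) x := by
    have h1 : (N ∘ M)^[i] ((N ∘ M)^[i' - i] x) = (N ∘ M)^[i] x := by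
      rw [← Function.iterate_add_apply, show i + (i' - i) = i' by omega]
      exact heq.symm
    exact hinj.iterate i h1
  exact hp.minimalPeriod_pos (by omega)

omit [DecidableEq V] in
theorem cyc_adj {x : V} (hx : x ∈ A) (hxc : M x ≠ N x) (i : ℕ) :
    r (cyc M N x i) (cyc M N x (i + 1)) := by
  have := cyc_mem hM hN hx hxc i
  rcases Nat.even_or_odd' i with ⟨t, rfl | rfl⟩
  · rw [cyc_odd, ← cyc_even]
    exact hM.adj _ this.1
  · rw [cyc_even_succ]
    exact hN.adj _ this.1

omit [DecidableEq V] in
theorem cyc_isCycle {sg : V → ℤ}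
    (hsg : ∀ x y, r x y → sg y = - sg x) (hsg0 : ∀ x, sg x ≠ 0) {x : V} (hx : x ∈ A)
    (hxc : M x ≠ N x) :
    IsCycleIn r (A : Set V) (2 * minimalPeriod (N ∘ M) x) (cyc M N x) := by
  have hpos := exists_period hM hN hx
  set p := minimalPeriod (N ∘ M) x with hp
  have hsign : ∀ i, sg (cyc M N x i) = (-1) ^ i * sg x := by
    intro i
    induction i with
    | zero => simp [cyc]
    | succ i ih =>
      rw [hsg _ _ (cyc_adj hM hN hx hxc i), ih, pow_succ]
      ring
  refine ⟨?_, ?_, ?_, ?_, ?_⟩
  · have : p ≠ 1 := by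
      intro h1
      have : IsPeriodicPt (N ∘ M) 1 x := by
        rw [← h1]; exact isPeriodicPt_minimalPeriod _ _
      have h2 : N (M x) = x := this
      have := hN.invol (M x)
      rw [h2] at this
      exact hxc this.symm
    omega
  · intro i
    rcases Nat.even_or_odd' i with ⟨t, rfl | rfl⟩
    · rw [show 2 * t + 2 * p = 2 * (t + p) by ring, cyc_even, cyc_even,
        Function.iterate_add_apply, hp, Function.iterate_minimalPeriod]
    · rw [show 2 * t + 1 + 2 * p = 2 * (t + p) + 1 by ring, cyc_odd, cyc_odd,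
        Function.iterate_add_apply, hp, Function.iterate_minimalPeriod]
  · intro i hi i' hi' heq
    have hpar : i % 2 = i' % 2 := by
      have h1 := hsign i
      have h2 := hsign i'
      rw [heq, h2] at h1
      have h3 := mul_right_cancel₀ (hsg0 x) h1
      rcases Nat.even_or_odd i with he | he <;> rcases Nat.even_or_odd i' with he' | he'
      · rw [Nat.even_iff] at he he'; omega
      · rw [he.neg_one_pow, he'.neg_one_pow] at h3; norm_num at h3
      · rw [he.neg_one_pow, he'.neg_one_pow] at h3; norm_num at h3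
      · rw [Nat.odd_iff] at he he'; omega
    have hinj := Function.iterate_injOn_Iio_minimalPeriod (f := N ∘ M) (x := x)
    rcases Nat.even_or_odd' i with ⟨t, rfl | rfl⟩ <;>
      rcases Nat.even_or_odd' i' with ⟨t', rfl | rfl⟩
    · rw [cyc_even, cyc_even] at heq
      have := hinj (show t ∈ Set.Iio _ by simp; omega) (show t' ∈ Set.Iio _ by simp; omega) heq
      omega
    · omega
    · omega
    · rw [cyc_odd, cyc_odd] at heq
      have := hinj (show t ∈ Set.Iio _ by simp; omega) (show t' ∈ Set.Iio _ by simp; omega)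
        (hM.invol.injective heq)
      omega
  · intro i
    exact (cyc_mem hM hN hx hxc i).1
  · intro i
    exact cyc_adj hM hN hx hxc i

omit [DecidableEq V] in
theorem cyc_alternating {x : V} (hx : x ∈ A) (hxc : M x ≠ N x) :
    Alternating (edges A M) (cyc M N x) := by
  intro i
  rw [mem_edges_iff hM, mem_edges_iff hM]
  have h0 := cyc_mem hM hN hx hxc i
  have h1 := cyc_mem hM hN hx hxc (i + 1)
  rcases Nat.even_or_odd' i with ⟨t, rfl | rfl⟩
  · have e1 : M (cyc M N x (2 * t)) = cyc M N x (2 * t + 1) := by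
      rw [cyc_even, cyc_odd]
    have e2 : cyc M N x (2 * t + 2) = N (cyc M N x (2 * t + 1)) := cyc_even_succ M N x t
    simp only [h0.1, e1, e2, true_and, true_iff, not_and]
    intro _
    exact h1.2
  · have e1 : cyc M N x (2 * t + 1 + 1) = N (cyc M N x (2 * t + 1)) := cyc_even_succ M N x t
    have e2 : M (cyc M N x (2 * t + 1 + 1)) = cyc M N x (2 * t + 1 + 2) := by
      rw [show 2 * t + 1 + 1 = 2 * (t + 1) by ring, show 2 * t + 1 + 2 = 2 * (t + 1) + 1 by ring,
        cyc_even, cyc_odd]
    constructor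
    · rintro ⟨-, h⟩
      rw [e1] at h
      exact absurd h h0.2
    · intro h
      exact absurd ⟨h1.1, e2⟩ h

end

/-- `N` on the cycle through `x`, `M` elsewhere -/
noncomputable def swapAt (M N : V → V) (x : V) : V → V := by
  classical
  exact fun y => if y ∈ Set.range (cyc M N x) then N y else M y

section

variable (hM : IsTiling r A M) (hN : IsTiling r A N)

include hM hN

omit [DecidableEq V] in
theorem range_closed {x : V} (hx : x ∈ A) {y : V}
    (hy : y ∈ Set.range (cyc M N x)) : M y ∈ Set.range (cyc M N x) ∧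
      N y ∈ Set.range (cyc M N x) := by
  have hpos := exists_period hM hN hx
  obtain ⟨i, rfl⟩ := hy
  rcases Nat.even_or_odd' i with ⟨t, rfl | rfl⟩
  · refine ⟨⟨2 * t + 1, by rw [cyc_odd, cyc_even]⟩, ?_⟩
    -- the previous vertex
    set p := minimalPeriod (N ∘ M) x with hp
    obtain ⟨t', ht'⟩ : ∃ t', (N ∘ M)^[t' + 1] x = (N ∘ M)^[t] x := by
      refine ⟨t + p - 1, ?_⟩
      rw [show t + p - 1 + 1 = t + p by omega, Function.iterate_add_apply, hp,
        Function.iterate_minimalPeriod]
    refine ⟨2 * t' + 1, ?_⟩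
    rw [cyc_odd, cyc_even, ← ht', Function.iterate_succ_apply']
    exact (hN.invol _).symm
  · refine ⟨⟨2 * t, by rw [cyc_odd, cyc_even, hM.invol]⟩, ⟨2 * t + 1 + 1, ?_⟩⟩
    rw [cyc_even_succ]

omit [DecidableEq V] in
theorem swapAt_isTiling {x : V} (hx : x ∈ A) (hxc : M x ≠ N x) :
    IsTiling r A (swapAt M N x) := by
  classical
  refine ⟨?_, ?_, ?_, ?_⟩
  · intro y hy
    simp only [swapAt]
    split_ifs
    · exact hN.mem y hy
    · exact hM.mem y hy
  · intro y hy
    simp only [swapAt]
    split_ifs
    · exact hN.adj y hy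
    · exact hM.adj y hy
  · intro y hy
    by_cases h : y ∈ Set.range (cyc M N x)
    · have h1 := (range_closed hM hN hx h).2
      simp only [swapAt, if_pos h, if_pos h1]
      exact hN.inv y hy
    · have h1 : M y ∉ Set.range (cyc M N x) := by
        intro h2
        have := (range_closed hM hN hx h2).1
        rw [hM.inv y hy] at this
        exact h this
      simp only [swapAt, if_neg h, if_neg h1]
      exact hM.inv y hy
  · intro y hy
    have h : y ∉ Set.range (cyc M N x) := by
      rintro ⟨i, rfl⟩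
      exact hy (cyc_mem hM hN hx hxc i).1
    simp only [swapAt, if_neg h]
    exact hM.out y hy

omit [DecidableEq V] in
theorem mem_cycleEdges {x : V} (hx : x ∈ A) {y z : V} :
    s(y, z) ∈ cycleEdges (cyc M N x) ↔
      y ∈ Set.range (cyc M N x) ∧ (M y = z ∨ N y = z) := by
  have hpos := exists_period hM hN hx
  have key : ∀ i, M (cyc M N x i) = cyc M N x (i + 1) ∨ N (cyc M N x i) = cyc M N x (i + 1) := by
    intro i
    rcases Nat.even_or_odd' i with ⟨t, rfl | rfl⟩
    · left; rw [cyc_even, cyc_odd]
    · right; rw [cyc_even_succ]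
  constructor
  · rintro ⟨i, hi⟩
    rw [Sym2.eq_iff] at hi
    rcases hi with ⟨rfl, rfl⟩ | ⟨rfl, rfl⟩
    · exact ⟨⟨i, rfl⟩, key i⟩
    · refine ⟨⟨i + 1, rfl⟩, ?_⟩
      rcases key i with h | h
      · left; rw [← h, hM.invol]
      · right; rw [← h, hN.invol]
  · rintro ⟨⟨i, rfl⟩, h⟩
    have hprev : ∀ i, ∃ i', cyc M N x (i' + 1) = cyc M N x i ∧
        (i' % 2 = 1 ↔ i % 2 = 0) := by
      intro i
      set p := minimalPeriod (N ∘ M) x with hp
      refine ⟨i + 2 * p - 1, ?_, by omega⟩
      rw [show i + 2 * p - 1 + 1 = i + 2 * p by omega]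
      rcases Nat.even_or_odd' i with ⟨t, rfl | rfl⟩
      · rw [show 2 * t + 2 * p = 2 * (t + p) by ring, cyc_even, cyc_even,
          Function.iterate_add_apply, hp, Function.iterate_minimalPeriod]
      · rw [show 2 * t + 1 + 2 * p = 2 * (t + p) + 1 by ring, cyc_odd, cyc_odd,
          Function.iterate_add_apply, hp, Function.iterate_minimalPeriod]
    rcases Nat.even_or_odd' i with ⟨t, rfl | rfl⟩
    · rcases h with rfl | rfl
      · exact ⟨2 * t, by rw [cyc_odd, cyc_even]⟩
      · obtain ⟨i', hi', hpar⟩ := hprev (2 * t)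
        obtain ⟨t', rfl⟩ : ∃ t', i' = 2 * t' + 1 := ⟨i' / 2, by omega⟩
        refine ⟨2 * t' + 1, ?_⟩
        rw [← hi', cyc_even_succ, hN.invol, Sym2.eq_swap]
    · rcases h with rfl | rfl
      · refine ⟨2 * t, ?_⟩
        rw [cyc_odd, cyc_even, hM.invol, Sym2.eq_swap]
      · exact ⟨2 * t + 1, by rw [cyc_even_succ]⟩

omit [DecidableEq V] in
theorem edges_swapAt {x : V} (hx : x ∈ A) (hxc : M x ≠ N x) :
    edges A (swapAt M N x) = symmDiff (edges A M) (cycleEdges (cyc M N x)) := by
  classical
  ext e
  induction e using Sym2.ind with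
  | _ y z =>
    rw [mem_edges_iff (swapAt_isTiling hM hN hx hxc), Set.mem_symmDiff, mem_edges_iff hM,
      mem_cycleEdges hM hN hx]
    by_cases h : y ∈ Set.range (cyc M N x)
    · obtain ⟨i, rfl⟩ := h
      have hm := cyc_mem hM hN hx hxc i
      have hr : cyc M N x i ∈ Set.range (cyc M N x) := ⟨i, rfl⟩
      simp only [swapAt, hm.1, hr, true_and, if_true]
      constructor
      · rintro rfl
        right
        exact ⟨Or.inr rfl, hm.2⟩
      · rintro (⟨h1, h2⟩ | ⟨h1, h2⟩)
        · exact absurd (Or.inl h1) h2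
        · exact h1.resolve_left h2
    · simp only [swapAt, h, if_false, false_and, not_false_eq_true, and_true, or_false]

end

/-- Two tilings differing in at most `K` points are joined by swaps of length at most `K`. -/
theorem joined_of_card {sg : V → ℤ} (hsg : ∀ x y, r x y → sg y = - sg x)
    (hsg0 : ∀ x, sg x ≠ 0) (K : ℕ) (A : Finset V) (N : V → V) (hN : IsTiling r A N) :
    ∀ (c : ℕ) (M : V → V), IsTiling r A M → (A.filter fun x => M x ≠ N x).card ≤ c → c ≤ K →
      Joined r (A : Set V) K (edges A M) (edges A N) := by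
  classical
  intro c
  induction c using Nat.strong_induction_on with
  | _ c ih =>
    intro M hM hc hcK
    by_cases hne : (A.filter fun x => M x ≠ N x).Nonempty
    · obtain ⟨x, hx⟩ := hne
      rw [Finset.mem_filter] at hx
      obtain ⟨hxA, hxc⟩ := hx
      have hT := swapAt_isTiling hM hN hxA hxc
      have hcyc := cyc_isCycle hM hN hsg hsg0 hxA hxc
      set M1 := swapAt M N x with hM1
      set p := minimalPeriod (N ∘ M) x with hp
      -- the cycle is contained in the set of changed points
      have hcard : 2 * p ≤ (A.filter fun x => M x ≠ N x).card := by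
        have : ((Finset.range (2 * p)).image (cyc M N x)).card = 2 * p := by
          rw [Finset.card_image_of_injOn, Finset.card_range]
          intro i hi i' hi' h
          exact hcyc.distinct i (by simpa using hi) i' (by simpa using hi') h
        rw [← this]
        apply Finset.card_le_card
        intro y hy
        rw [Finset.mem_image] at hy
        obtain ⟨i, _, rfl⟩ := hy
        rw [Finset.mem_filter]
        exact cyc_mem hM hN hxA hxc i
      have hlt : (A.filter fun y => M1 y ≠ N y).card < (A.filter fun y => M y ≠ N y).card := by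
        apply Finset.card_lt_card
        rw [Finset.ssubset_iff_of_subset]
        · refine ⟨x, by simp [hxA, hxc], ?_⟩
          rw [Finset.mem_filter]
          rintro ⟨-, h⟩
          apply h
          have : x ∈ Set.range (cyc M N x) := ⟨0, by simp [cyc]⟩
          simp only [hM1, swapAt, if_pos this]
        · intro y hy
          rw [Finset.mem_filter] at hy ⊢
          refine ⟨hy.1, ?_⟩
          intro h
          apply hy.2
          simp only [hM1, swapAt]
          split_ifs
          · rfl
          · exact h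
      have hrec := ih _ (lt_of_lt_of_le hlt hc) M1 hT le_rfl (by omega)
      refine Relation.ReflTransGen.head ?_ hrec
      refine ⟨hM.isConfig, hT.isConfig, 2 * p, by omega, cyc M N x, hcyc,
        cyc_alternating hM hN hxA hxc, edges_swapAt hM hN hxA hxc⟩
    · have : M = N := by
        funext y
        by_cases hy : y ∈ A
        · by_contra h
          exact hne ⟨y, by simp [hy, h]⟩
        · rw [hM.out y hy, hN.out y hy]
      rw [this]
      exact Relation.ReflTransGen.refl

theorem joined_of_conn {sg : V → ℤ} (hsg : ∀ x y, r x y → sg y = - sg x)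
    (hsg0 : ∀ x, sg x ≠ 0) {K : ℕ} {A : Finset V} {M N : V → V} (h : Conn r K A M N) :
    Joined r (A : Set V) K (edges A M) (edges A N) := by
  induction h with
  | refl => exact Relation.ReflTransGen.refl
  | tail _ hbc ih =>
    exact ih.trans (joined_of_card hsg hsg0 K A _ hbc.2.1 _ _ hbc.1 le_rfl hbc.2.2)

end Pool.Agent.Dimer3D
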