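import Pool.Agent.Dimer3D.Cylinder

/-!
# All balanced regions of height at least `card α - 1` can be tiled
-/

namespace Pool.Agent.Dimer3D

open Finset

variable {α : Type*} [Fintype α] [DecidableEq α] {H : SimpleGraph α} {s : α → ℤ}

omit [Fintype α] [DecidableEq α] in
theorem walk_sign (hs : ∀ a b, H.Adj a b → s b = - s a) {u v : α} (p : H.Walk u v) :
    s v = (-1) ^ p.length * s u := by
  induction p with
  | nil => simp
  | @cons a b c h q ih =>
    rw [ih, hs _ _ h, SimpleGraph.Walk.length_cons, pow_succ]
    ring

omit [Fintype α] in
/-- two opposite elements of `q` joined by a path of odd length with interior outside `q` -/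
theorem exists_pair_path (hH : H.Preconnected) (hs : ∀ a b, H.Adj a b → s b = - s a)
    (hs1 : ∀ a, s a = 1 ∨ s a = -1) (q : Finset α) (hq : ∑ a ∈ q, s a = 0) (hne : q.Nonempty) :
    ∃ u ∈ q, ∃ v ∈ q, s u + s v = 0 ∧ u ≠ v ∧ ∃ (n : ℕ) (p : H.Walk u v), p.length = 2 * n + 1 ∧
      p.IsPath ∧ ∀ z ∈ p.support, z ≠ u → z ≠ v → z ∉ q := by
  classical
  have hex : ((q ×ˢ q).filter fun x => s x.1 ≠ s x.2).Nonempty := by
    by_contra hcon
    rw [Finset.not_nonempty_iff_eq_empty, Finset.filter_eq_empty_iff] at hcon
    obtain ⟨a, ha⟩ := hne
    have hall : ∀ b ∈ q, s b = s a := by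
      intro b hb
      have := hcon (x := (a, b)) (by simp [ha, hb])
      push Not at this
      exact this.symm
    rw [Finset.sum_congr rfl hall, Finset.sum_const, nsmul_eq_mul] at hq
    have hc : (0 : ℤ) < (q.card : ℤ) := by
      exact_mod_cast Finset.card_pos.2 ⟨a, ha⟩
    rcases hs1 a with h | h <;> rw [h] at hq <;> linarith
  obtain ⟨⟨u, v⟩, huv, hmin⟩ := Finset.exists_min_image _ (fun x : α × α => H.dist x.1 x.2) hex
  simp only [Finset.mem_filter, Finset.mem_product] at huv
  obtain ⟨⟨huq, hvq⟩, hsuv⟩ := huv
  have hsum : s u + s v = 0 := by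
    rcases hs1 u with h | h <;> rcases hs1 v with h' | h' <;> rw [h, h'] at hsuv ⊢ <;> simp_all
  have hne' : u ≠ v := fun h => hsuv (h ▸ rfl)
  obtain ⟨p, hp, hpl⟩ := (hH u v).exists_path_of_dist
  have hodd : Odd p.length := by
    rw [← Nat.not_even_iff_odd]
    intro hev
    have := walk_sign hs p
    rw [hev.neg_one_pow, one_mul] at this
    exact hsuv this.symm
  obtain ⟨n, hn⟩ := hodd
  refine ⟨u, huq, v, hvq, hsum, hne', n, p, hn, hp, ?_⟩
  intro z hz hzu hzv hzq
  have h1 : (p.takeUntil z hz).length + (p.dropUntil z hz).length = p.length := by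
    rw [← SimpleGraph.Walk.length_append, SimpleGraph.Walk.take_spec]
  have h2 : (p.takeUntil z hz).length ≠ 0 := by
    intro h0
    exact hzu (SimpleGraph.Walk.eq_of_length_eq_zero h0).symm
  have h3 : (p.dropUntil z hz).length ≠ 0 := by
    intro h0
    exact hzv (SimpleGraph.Walk.eq_of_length_eq_zero h0)
  have d1 : H.dist u z ≤ (p.takeUntil z hz).length := SimpleGraph.dist_le _
  have d2 : H.dist z v ≤ (p.dropUntil z hz).length := SimpleGraph.dist_le _
  by_cases hsz : s u ≠ s z
  · have := hmin (u, z) (by simp [huq, hzq, hsz])
    simp only at this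
    omega
  · push Not at hsz
    have hszv : s z ≠ s v := by rw [← hsz]; exact hsuv
    have := hmin (z, v) (by simp [hvq, hzq, hszv])
    simp only at this
    omega

/-- `2t` full levels minus the part `q` of the top level -/
theorem tileable_minus (hH : H.Preconnected) (hs : ∀ a b, H.Adj a b → s b = - s a)
    (hs1 : ∀ a, s a = 1 ∨ s a = -1) (t : ℕ) : ∀ q : Finset α, ∑ a ∈ q, s a = 0 →
    q.card ≤ 2 * t →
    Tileable (cadj H) (((univ : Finset α) ×ˢ range (2 * t)) \ (q ×ˢ {2 * t - 1})) := by
  induction t with
  | zero =>
    intro q _ _
    simpa using tileable_empty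
  | succ t ih =>
    intro q hq hcard
    rcases q.eq_empty_or_nonempty with rfl | hne
    · have h0 := ih ∅ (by simp) (by simp)
      have h1 := h0.union (tileable_vert (H := H) (univ : Finset α) (2 * t)) (by
        rw [Finset.disjoint_left]
        rintro ⟨a, i⟩ hx hx'
        simp only [Finset.mem_sdiff, Finset.mem_product, Finset.mem_univ, true_and,
          Finset.mem_range, Finset.mem_insert, Finset.mem_singleton] at hx hx'
        omega)
      convert h1 using 1
      ext ⟨a, i⟩
      simp only [Finset.mem_sdiff, Finset.mem_product, Finset.mem_univ, true_and,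
        Finset.mem_range, Finset.mem_insert, Finset.mem_singleton, Finset.mem_union,
        Finset.notMem_empty, false_and, not_false_eq_true, and_true]
      omega
    · obtain ⟨u, hu, v, hv, hsum, huv, n, p, hpl, hp, hint⟩ :=
        exists_pair_path hH hs hs1 q hq hne
      set q' := (q.erase u).erase v with hq'
      have hvq1 : v ∈ q.erase u := Finset.mem_erase.2 ⟨huv.symm, hv⟩
      have hsum' : ∑ a ∈ q', s a = 0 := by
        have e1 := Finset.add_sum_erase q s hu
        have e2 := Finset.add_sum_erase (q.erase u) s hvq1
        rw [← hq'] at e2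
        linarith
      have hc1 : q'.card + 2 = q.card := by
        have e1 := Finset.card_erase_add_one hu
        have e2 := Finset.card_erase_add_one hvq1
        rw [← hq'] at e2
        omega
      have hmem' : ∀ a, a ∈ q' ↔ a ∈ q ∧ a ≠ u ∧ a ≠ v := by
        intro a
        rw [hq']
        simp only [Finset.mem_erase]
        tauto
      have h0 := ih q' hsum' (by omega)
      have h3 := tileable_path (H := H) (2 * t) n (univ \ q) p hpl hp (by simp [hu])
        (by simp [hv]) (by
          intro z hz h1 h2
          simpa using hint z hz h1 h2)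
      rcases Nat.eq_zero_or_pos t with rfl | htpos
      · have hq'0 : q' = ∅ := by
          rw [← Finset.card_eq_zero]; omega
        convert h3 using 1
        ext ⟨a, i⟩
        have := hmem' a
        rw [hq'0] at this
        simp only [Finset.notMem_empty, false_iff, not_and, not_not] at this
        simp only [Finset.mem_sdiff, Finset.mem_product, Finset.mem_univ, true_and,
          Finset.mem_range, Finset.mem_insert, Finset.mem_singleton, Finset.mem_union,
          Prod.mk.injEq]
        constructor
        · rintro ⟨hi, hn⟩
          by_cases ha : a ∈ q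
          · have hi1 : i ≠ 1 := fun h => hn ⟨ha, by omega⟩
            right
            by_cases hau : a = u
            · left; exact ⟨hau, by omega⟩
            · right; exact ⟨this ha hau, by omega⟩
          · left; exact ⟨ha, by omega⟩
        · rintro (⟨ha, hi⟩ | (⟨ha, hi⟩ | ⟨ha, hi⟩))
          · exact ⟨by omega, fun h => ha h.1⟩
          · exact ⟨by omega, fun h => by omega⟩
          · exact ⟨by omega, fun h => by omega⟩
      · have h2 := tileable_vert (H := H) q' (2 * t - 1)
        have e21 : 2 * t - 1 + 1 = 2 * t := by omega
        rw [e21] at h2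
        have h02 := h0.union h2 (by
          rw [Finset.disjoint_left]
          rintro ⟨a, i⟩ hx hx'
          simp only [Finset.mem_sdiff, Finset.mem_product, Finset.mem_univ, true_and,
            Finset.mem_range, Finset.mem_insert, Finset.mem_singleton, not_and] at hx hx'
          have := hx.2 hx'.1
          omega)
        have h023 := h02.union h3 (by
          rw [Finset.disjoint_left]
          rintro ⟨a, i⟩ hx hx'
          simp only [Finset.mem_sdiff, Finset.mem_product, Finset.mem_univ, true_and,
            Finset.mem_range, Finset.mem_insert, Finset.mem_singleton, Finset.mem_union,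
            Prod.mk.injEq] at hx hx'
          rcases hx with hx | hx
          · omega
          · have hx1 := (hmem' a).1 hx.1
            rcases hx' with h | (h | h)
            · exact h.1 hx1.1
            · exact hx1.2.1 h.1
            · exact hx1.2.2 h.1)
        convert h023 using 1
        ext ⟨a, i⟩
        have hm := hmem' a
        simp only [Finset.mem_sdiff, Finset.mem_product, Finset.mem_univ, true_and,
          Finset.mem_range, Finset.mem_insert, Finset.mem_singleton, Finset.mem_union,
          Prod.mk.injEq]
        constructor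
        · rintro ⟨hi, hn⟩
          by_cases ha : a ∈ q
          · have hi1 : i ≠ 2 * t + 1 := fun h => hn ⟨ha, by omega⟩
            by_cases ha' : a ∈ q'
            · by_cases hi2 : i < 2 * t - 1
              · left; left; exact ⟨by omega, fun h => by omega⟩
              · left; right; exact ⟨ha', by omega⟩
            · by_cases hi2 : i < 2 * t
              · left; left; exact ⟨hi2, fun h => ha' h.1⟩
              · right; right
                by_cases hau : a = u
                · left; exact ⟨hau, by omega⟩
                · right
                  refine ⟨?_, by omega⟩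
                  by_contra hav
                  exact ha' (hm.2 ⟨ha, hau, hav⟩)
          · have ha' : a ∉ q' := fun h => ha (hm.1 h).1
            by_cases hi2 : i < 2 * t
            · left; left; exact ⟨hi2, fun h => ha' h.1⟩
            · right; left; exact ⟨ha, by omega⟩
        · rintro ((⟨hi, hn⟩ | ⟨ha, hi⟩) | (⟨ha, hi⟩ | (⟨ha, hi⟩ | ⟨ha, hi⟩)))
          · exact ⟨by omega, fun h => by omega⟩
          · exact ⟨by omega, fun h => by omega⟩
          · exact ⟨by omega, fun h => ha h.1⟩
          · exact ⟨by omega, fun h => by omega⟩
          · exact ⟨by omega, fun h => by omega⟩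

omit [Fintype α] [DecidableEq α] in
theorem even_card_of_sum (hs1 : ∀ a, s a = 1 ∨ s a = -1) (q : Finset α)
    (hq : ∑ a ∈ q, s a = 0) : Even q.card := by
  have h : ∑ a ∈ q, (s a + 1) = (q.card : ℤ) := by
    rw [Finset.sum_add_distrib, hq]; simp
  have h2 : (2 : ℤ) ∣ ∑ a ∈ q, (s a + 1) := by
    apply Finset.dvd_sum
    intro a _
    rcases hs1 a with h | h <;> rw [h] <;> norm_num
  rw [h] at h2
  rw [even_iff_two_dvd]
  exact_mod_cast h2

theorem sum_reg (k : ℕ) (U : Finset α) : ∑ x ∈ reg k U, sgn s x =
    (∑ i ∈ range k, (-1 : ℤ) ^ i) * ∑ a, s a + (-1) ^ k * ∑ a ∈ U, s a := by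
  rw [reg, Finset.sum_union]
  · rw [Finset.sum_product, Finset.sum_product]
    congr 1
    · simp only [sgn]
      rw [Finset.sum_comm, Finset.sum_mul]
      apply Finset.sum_congr rfl
      intro i _
      rw [Finset.mul_sum]
      apply Finset.sum_congr rfl
      intro a _
      ring
    · simp only [sgn, Finset.sum_singleton]
      rw [Finset.mul_sum]
      apply Finset.sum_congr rfl
      intro a _
      ring
  · rw [Finset.disjoint_left]
    rintro ⟨a, i⟩ hx hx'
    simp only [Finset.mem_product, Finset.mem_univ, true_and, Finset.mem_range,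
      Finset.mem_singleton] at hx hx'
    omega

theorem sum_alt (t : ℕ) : ∑ i ∈ range (2 * t), (-1 : ℤ) ^ i = 0 := by
  induction t with
  | zero => simp
  | succ t ih =>
    rw [show 2 * (t + 1) = 2 * t + 1 + 1 by ring, Finset.sum_range_succ, Finset.sum_range_succ,
      ih, pow_succ]
    ring

/-- every balanced region of height at least `card α - 1` is tileable -/
theorem tileable_reg (hH : H.Preconnected) (hs : ∀ a b, H.Adj a b → s b = - s a)
    (hs1 : ∀ a, s a = 1 ∨ s a = -1) (k : ℕ) (hk : Fintype.card α ≤ k + 1) (U : Finset α)
    (hbal : ∑ x ∈ reg k U, sgn s x = 0) : Tileable (cadj H) (reg k U) := by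
  rcases Nat.even_or_odd' k with ⟨t, rfl | rfl⟩
  · rw [sum_reg, sum_alt, zero_mul, zero_add] at hbal
    have hU : ∑ a ∈ U, s a = 0 := by
      rcases neg_one_pow_eq_or ℤ (2 * t) with h | h <;> rw [h] at hbal <;> linarith
    have hcU : U.card ≤ 2 * t := by
      have h1 := even_card_of_sum hs1 U hU
      have h2 : U.card ≤ Fintype.card α := Finset.card_le_univ U
      obtain ⟨c, hc⟩ := h1
      omega
    have h0 := tileable_minus hH hs hs1 t U hU hcU
    rcases Nat.eq_zero_or_pos t with rfl | ht
    · have : U = ∅ := by rw [← Finset.card_eq_zero]; omega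
      subst this
      simpa [reg] using tileable_empty
    · have h2 := tileable_vert (H := H) U (2 * t - 1)
      have e21 : 2 * t - 1 + 1 = 2 * t := by omega
      rw [e21] at h2
      have h02 := h0.union h2 (by
          rw [Finset.disjoint_left]
          rintro ⟨a, i⟩ hx hx'
          simp only [Finset.mem_sdiff, Finset.mem_product, Finset.mem_univ, true_and,
            Finset.mem_range, Finset.mem_insert, Finset.mem_singleton, not_and] at hx hx'
          have := hx.2 hx'.1
          omega)
      convert h02 using 1
      ext ⟨a, i⟩
      rw [mem_reg]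
      simp only [Finset.mem_sdiff, Finset.mem_product, Finset.mem_univ, true_and,
          Finset.mem_range, Finset.mem_insert, Finset.mem_singleton, Finset.mem_union]
      constructor
      · rintro (h | h)
        · by_cases ha : a ∈ U ∧ i = 2 * t - 1
          · right; exact ⟨ha.1, Or.inl ha.2⟩
          · left; exact ⟨h, ha⟩
        · right; exact ⟨h.1, Or.inr h.2⟩
      · rintro (h | h)
        · left; exact h.1
        · rcases h with ⟨ha, hi | hi⟩
          · left; show i < 2 * t; omega
          · right; exact ⟨ha, hi⟩
  · rw [sum_reg, Finset.sum_range_succ, sum_alt] at hbal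
    have hU : ∑ a ∈ univ \ U, s a = 0 := by
      have e := Finset.sum_sdiff (f := s) (Finset.subset_univ U)
      rw [pow_succ, pow_mul] at hbal
      norm_num at hbal
      linarith
    have h0 := tileable_minus hH hs hs1 (t + 1) (univ \ U) hU (by
      have h2 : (univ \ U).card ≤ Fintype.card α := Finset.card_le_univ _
      omega)
    convert h0 using 1
    ext ⟨a, i⟩
    rw [mem_reg]
    simp only [Finset.mem_sdiff, Finset.mem_product, Finset.mem_univ, true_and,
          Finset.mem_range, Finset.mem_singleton]
    constructor
    · rintro (h | h)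
      · exact ⟨by omega, fun h' => by omega⟩
      · exact ⟨by omega, fun h' => h'.1 h.1⟩
    · rintro ⟨h, h'⟩
      by_cases hi : i < 2 * t + 1
      · left; exact hi
      · right
        have hi' : i = 2 * t + 1 := by omega
        refine ⟨?_, hi'⟩
        by_contra ha
        exact h' ⟨ha, by omega⟩

end Pool.Agent.Dimer3D
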