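import Mathlib

/-!
# Tilings of finite regions by dominoes, as involutions

`r` is a symmetric relation (adjacency) on a type `V`.  A tiling of a finite set `A` is a map
`M : V → V` which is an involution of `A` moving each point of `A` to an adjacent one, and which
is the identity outside `A`.
-/

namespace Pool.Agent.Dimer3D

open Finset

variable {V : Type*} [DecidableEq V]

structure IsTiling (r : V → V → Prop) (A : Finset V) (M : V → V) : Prop where
  mem : ∀ x ∈ A, M x ∈ A
  adj : ∀ x ∈ A, r x (M x)
  inv : ∀ x ∈ A, M (M x) = x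
  out : ∀ x, x ∉ A → M x = x

def Tileable (r : V → V → Prop) (A : Finset V) : Prop := ∃ M, IsTiling r A M

def Near (r : V → V → Prop) (K : ℕ) (A : Finset V) (M N : V → V) : Prop :=
  IsTiling r A M ∧ IsTiling r A N ∧ (A.filter fun x => M x ≠ N x).card ≤ K

def Conn (r : V → V → Prop) (K : ℕ) (A : Finset V) (M N : V → V) : Prop :=
  Relation.ReflTransGen (Near r K A) M N

variable {r : V → V → Prop} {K : ℕ} {A B : Finset V} {M N : V → V}

theorem Near.symm (h : Near r K A M N) : Near r K A N M := by
  refine ⟨h.2.1, h.1, ?_⟩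
  have : (A.filter fun x => N x ≠ M x) = (A.filter fun x => M x ≠ N x) := by
    apply Finset.filter_congr
    intro x _
    exact ne_comm
  rw [this]
  exact h.2.2

theorem Conn.symm (h : Conn r K A M N) : Conn r K A N M := by
  induction h with
  | refl => exact Relation.ReflTransGen.refl
  | tail _ hbc ih => exact Relation.ReflTransGen.head hbc.symm ih

theorem Conn.trans {P : V → V} (h : Conn r K A M N) (h' : Conn r K A N P) : Conn r K A M P :=
  Relation.ReflTransGen.trans h h'

/-- `M` outside `A`, `N` on `A`. -/
def patch (A : Finset V) (N M : V → V) : V → V := fun x => if x ∈ A then N x else M x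

/-- restriction of `M` to `A`, identity outside -/
def restr (A : Finset V) (M : V → V) : V → V := fun x => if x ∈ A then M x else x

theorem IsTiling.restr (h : IsTiling r B M) (hAB : A ⊆ B) (hcl : ∀ x ∈ A, M x ∈ A) :
    IsTiling r A (restr A M) := by
  refine ⟨?_, ?_, ?_, ?_⟩
  · intro x hx
    simpa [Dimer3D.restr, hx] using hcl x hx
  · intro x hx
    simpa [Dimer3D.restr, hx] using h.adj x (hAB hx)
  · intro x hx
    simpa [Dimer3D.restr, hx, hcl x hx] using h.inv x (hAB hx)
  · intro x hx
    simp [Dimer3D.restr, hx]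

theorem IsTiling.patch (h : IsTiling r B M) (hAB : A ⊆ B) (hcl : ∀ x ∈ A, M x ∈ A)
    (hN : IsTiling r A N) : IsTiling r B (patch A N M) := by
  have hout : ∀ x ∈ B, x ∉ A → M x ∉ A := by
    intro x hx hxA hMA
    apply hxA
    have := hcl _ hMA
    rwa [h.inv x hx] at this
  refine ⟨?_, ?_, ?_, ?_⟩
  · intro x hx
    by_cases hxA : x ∈ A
    · simpa [Dimer3D.patch, hxA] using hAB (hN.mem x hxA)
    · simpa [Dimer3D.patch, hxA] using h.mem x hx
  · intro x hx
    by_cases hxA : x ∈ A
    · simpa [Dimer3D.patch, hxA] using hN.adj x hxA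
    · simpa [Dimer3D.patch, hxA] using h.adj x hx
  · intro x hx
    by_cases hxA : x ∈ A
    · simp [Dimer3D.patch, hxA, hN.mem x hxA, hN.inv x hxA]
    · simp [Dimer3D.patch, hxA, hout x hx hxA, h.inv x hx]
  · intro x hx
    have hxA : x ∉ A := fun hh => hx (hAB hh)
    simpa [Dimer3D.patch, hxA] using h.out x hx

theorem patch_restr : patch A (restr A M) M = M := by
  funext x
  by_cases hx : x ∈ A <;> simp [patch, restr, hx]

theorem Near.patch {N' : V → V} (h : IsTiling r B M) (hAB : A ⊆ B) (hcl : ∀ x ∈ A, M x ∈ A)
    (hN : Near r K A N N') : Near r K B (patch A N M) (patch A N' M) := by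
  refine ⟨h.patch hAB hcl hN.1, h.patch hAB hcl hN.2.1, ?_⟩
  refine le_trans (Finset.card_le_card ?_) hN.2.2
  intro x hx
  rw [Finset.mem_filter] at hx ⊢
  by_cases hxA : x ∈ A
  · refine ⟨hxA, ?_⟩
    simpa [Dimer3D.patch, hxA] using hx.2
  · simp [Dimer3D.patch, hxA] at hx

theorem Conn.patch {N' : V → V} (h : IsTiling r B M) (hAB : A ⊆ B) (hcl : ∀ x ∈ A, M x ∈ A)
    (hN : Conn r K A N N') : Conn r K B (patch A N M) (patch A N' M) := by
  induction hN with
  | refl => exact Relation.ReflTransGen.refl
  | tail _ hbc ih => exact Relation.ReflTransGen.tail ih (hbc.patch h hAB hcl)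

/-- if the restriction of `M` to a closed part `A` is connected to `N'`, then `M` is connected
to the tiling obtained by replacing it -/
theorem conn_patch {N' : V → V} (h : IsTiling r B M) (hAB : A ⊆ B) (hcl : ∀ x ∈ A, M x ∈ A)
    (hN : Conn r K A (restr A M) N') : Conn r K B M (patch A N' M) := by
  have := hN.patch h hAB hcl
  rwa [patch_restr] at this

theorem tileable_empty : Tileable r (∅ : Finset V) :=
  ⟨id, by constructor <;> simp⟩

theorem Tileable.union (hA : Tileable r A) (hB : Tileable r B) (hd : Disjoint A B) :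
    Tileable r (A ∪ B) := by
  obtain ⟨M, hM⟩ := hA
  obtain ⟨N, hN⟩ := hB
  have hAB : ∀ x ∈ B, x ∉ A := fun x hx hxA => Finset.disjoint_left.1 hd hxA hx
  refine ⟨fun x => if x ∈ A then M x else N x, ?_, ?_, ?_, ?_⟩
  · intro x hx
    by_cases hxA : x ∈ A
    · simp only [hxA, if_true]
      exact Finset.mem_union_left _ (hM.mem x hxA)
    · have hxB : x ∈ B := (Finset.mem_union.1 hx).resolve_left hxA
      simp only [hxA, if_false]
      exact Finset.mem_union_right _ (hN.mem x hxB)
  · intro x hx
    by_cases hxA : x ∈ A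
    · simp only [hxA, if_true]
      exact hM.adj x hxA
    · have hxB : x ∈ B := (Finset.mem_union.1 hx).resolve_left hxA
      simp only [hxA, if_false]
      exact hN.adj x hxB
  · intro x hx
    by_cases hxA : x ∈ A
    · simp only [hxA, if_true, hM.mem x hxA]
      exact hM.inv x hxA
    · have hxB : x ∈ B := (Finset.mem_union.1 hx).resolve_left hxA
      simp only [hxA, if_false, hAB _ (hN.mem x hxB)]
      exact hN.inv x hxB
  · intro x hx
    rw [Finset.mem_union, not_or] at hx
    simp only [hx.1, if_false]
    exact hN.out x hx.2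

theorem tileable_pair (hs : ∀ x y, r x y → r y x) {x y : V} (hxy : r x y) (hne : x ≠ y) :
    Tileable r ({x, y} : Finset V) := by
  refine ⟨fun z => if z = x then y else if z = y then x else z, ?_, ?_, ?_, ?_⟩
  · intro z hz
    simp only [Finset.mem_insert, Finset.mem_singleton] at hz
    rcases hz with rfl | rfl
    · simp
    · simp [hne.symm]
  · intro z hz
    simp only [Finset.mem_insert, Finset.mem_singleton] at hz
    rcases hz with rfl | rfl
    · simpa using hxy
    · simpa [hne.symm] using hs _ _ hxy
  · intro z hz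
    simp only [Finset.mem_insert, Finset.mem_singleton] at hz
    rcases hz with rfl | rfl
    · simp [hne.symm]
    · simp [hne.symm]
  · intro z hz
    simp only [Finset.mem_insert, Finset.mem_singleton, not_or] at hz
    simp [hz.1, hz.2]

end Pool.Agent.Dimer3D
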